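import Pool.Agent.N869.QT.L.Stm
import Pool.Agent.N869.QT.L.LA1

/-!
# QT-LA1: the number of the completions that satisfy given linear equations (coloured systems)
-/

set_option autoImplicit false
set_option linter.unusedVariables false
set_option linter.unusedSectionVars false

open scoped Classical

namespace Pool.Agent.N869.QT.L.LA1C

open Finset Pool.Agent.N869.QT.L Pool.Agent.N869.QT.L.LA0 Pool.Agent.N869.QT.L.LA1

/-! ### rows restricted to a set -/

section rowsL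

variable {J : Type} [Fintype J] [LinearOrder J] (L : Finset J) (tJ : J → ZMod 2)

theorem sum_pairsL {M : Type} [AddCommMonoid M] (F : J → J → M) :
    ∑ k ∈ L, ∑ l ∈ L, F k l = ∑ e ∈ (prs J).filter (fun e => e.1 ∈ L ∧ e.2 ∈ L),
      (F e.1 e.2 + F e.2 e.1) + ∑ k ∈ L, F k k := by
  have h := sum_pairs (ι := J) (fun k l => if k ∈ L then (if l ∈ L then F k l else 0) else 0)
  have h1 : ∑ k, ∑ l, (if k ∈ L then (if l ∈ L then F k l else 0) else 0) =
      ∑ k ∈ L, ∑ l ∈ L, F k l := by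
    have h2 : ∀ k, ∑ l, (if k ∈ L then (if l ∈ L then F k l else 0) else 0) =
        if k ∈ L then ∑ l ∈ L, F k l else 0 := by
      intro k
      split_ifs
      · rw [Finset.sum_ite_mem, Finset.univ_inter]
      · simp
    rw [Finset.sum_congr rfl fun k _ => h2 k, Finset.sum_ite_mem, Finset.univ_inter]
  rw [h1] at h
  rw [h]
  congr 1
  · rw [Finset.sum_filter]
    refine Finset.sum_congr rfl fun e _ => ?_
    by_cases h1 : e.1 ∈ L <;> by_cases h2 : e.2 ∈ L <;> simp [h1, h2]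
  · have h3 : ∀ k, (if k ∈ L then (if k ∈ L then F k k else 0) else 0) =
        if k ∈ L then F k k else 0 := by
      intro k
      split_ifs <;> rfl
    rw [Finset.sum_congr rfl fun k _ => h3 k, Finset.sum_ite_mem, Finset.univ_inter]

/-- the left side of the equation -/
noncomputable def rwL (f d : J → ZMod 2) (α : prs J → ZMod 2) (k : J) : ZMod 2 :=
  f k + ∑ l ∈ L, ext tJ α k l * (d k + d l)

theorem rwL_aff (f d : J → ZMod 2) (α : prs J → ZMod 2) (k : J) :
    rwL L tJ f d α k = rwL L tJ f d 0 k +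
      ∑ l ∈ L, (aa α (l, k) + aa α (k, l)) * (d k + d l) := by
  unfold rwL
  rw [add_assoc, ← Finset.sum_add_distrib]
  congr 1
  refine Finset.sum_congr rfl fun l _ => ?_
  rw [ext_eq, ext_eq]
  have h1 : ∀ e : J × J, aa (0 : prs J → ZMod 2) e = 0 := by
    intro e
    unfold aa
    split_ifs <;> rfl
  rw [h1, h1]
  ring

/-- the sum of the rows -/
theorem sum_rwL (f d : J → ZMod 2) : ∑ k ∈ L, rwL L tJ f d 0 k = c1C L tJ f d := by
  unfold rwL c1C
  rw [Finset.sum_add_distrib]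
  congr 1
  rw [sum_pairsL]
  have h2 : ∑ k ∈ L, ext tJ 0 k k * (d k + d k) = 0 :=
    Finset.sum_eq_zero fun k _ => by rw [add_self0 (d k), mul_zero]
  rw [h2, add_zero]
  refine Finset.sum_congr rfl fun e he => ?_
  have h3 : e.1 ≠ e.2 := (mem_prs.1 (Finset.mem_filter.1 he).1).ne
  rw [← ext_add tJ 0 e.1 e.2 h3]
  ring

/-- the polarization -/
theorem pol_rwL (f d f' d' : J → ZMod 2) :
    ∑ k ∈ L, d' k * rwL L tJ f d 0 k + ∑ k ∈ L, d k * rwL L tJ f' d' 0 k =
    c2C L tJ f d f' d' := by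
  unfold rwL c2C
  rw [← Finset.sum_add_distrib]
  have h1 : ∀ k, d' k * (f k + ∑ l ∈ L, ext tJ 0 k l * (d k + d l)) +
      d k * (f' k + ∑ l ∈ L, ext tJ 0 k l * (d' k + d' l)) =
      (f k * d' k + f' k * d k) +
        ∑ l ∈ L, (ext tJ 0 k l * (d' k * d l) + ext tJ 0 k l * (d k * d' l)) := by
    intro k
    rw [mul_add, mul_add, Finset.mul_sum, Finset.mul_sum]
    have h2 : ∑ l ∈ L, (ext tJ 0 k l * (d' k * d l) + ext tJ 0 k l * (d k * d' l)) =
        ∑ l ∈ L, (d' k * (ext tJ 0 k l * (d k + d l)) +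
          d k * (ext tJ 0 k l * (d' k + d' l))) := by
      refine Finset.sum_congr rfl fun l _ => ?_
      linear_combination (-(ext tJ 0 k l * d k * d' k)) * two0
    rw [h2, Finset.sum_add_distrib]
    ring
  rw [Finset.sum_congr rfl fun k _ => h1 k, Finset.sum_add_distrib]
  congr 1
  have h3 : ∑ k ∈ L, ∑ l ∈ L, ext tJ 0 k l * (d' k * d l) =
      ∑ k ∈ L, ∑ l ∈ L, ext tJ 0 l k * (d k * d' l) := by
    rw [Finset.sum_comm]
    refine Finset.sum_congr rfl fun p _ => Finset.sum_congr rfl fun q _ => ?_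
    ring
  simp only [Finset.sum_add_distrib]
  rw [h3, ← Finset.sum_add_distrib]
  refine Finset.sum_congr rfl fun k _ => ?_
  rw [← Finset.sum_add_distrib]
  refine Finset.sum_congr rfl fun l _ => ?_
  by_cases h : k = l
  · subst h
    rw [if_pos rfl, add_self0]
  · rw [if_neg h, ← ext_add tJ 0 k l h]
    ring

/-- the linear part -/
theorem aff_sum (d y : J → ZMod 2) (α : prs J → ZMod 2) :
    ∑ k ∈ L, y k * ∑ l ∈ L, (aa α (l, k) + aa α (k, l)) * (d k + d l) =
      ∑ e ∈ prs J, aa α e *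
        (if e.1 ∈ L ∧ e.2 ∈ L then (y e.1 + y e.2) * (d e.1 + d e.2) else 0) := by
  simp only [Finset.mul_sum]
  rw [sum_pairsL L (fun k l => y k * ((aa α (l, k) + aa α (k, l)) * (d k + d l)))]
  have h2 : ∑ k ∈ L, y k * ((aa α (k, k) + aa α (k, k)) * (d k + d k)) = 0 :=
    Finset.sum_eq_zero fun k _ => by rw [add_self0 (d k), mul_zero, mul_zero]
  rw [h2, add_zero, Finset.sum_filter]
  refine Finset.sum_congr rfl fun e he => ?_
  split_ifs
  · have h3 : e.1 < e.2 := mem_prs.1 he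
    rw [aa_neg α (e := (e.2, e.1)) (not_lt.2 h3.le)]
    have h4 : aa α (e.1, e.2) = aa α e := rfl
    rw [h4]
    ring
  · rw [mul_zero]

end rowsL

/-! ### the matrices of the parameters -/

section mats

variable {I : Type} [Fintype I] {m : I → ℕ}

/-- the matrix of a function on the pairs of the same type -/
noncomputable def sm (s : (Σ a, prs (Fin (m a))) → ZMod 2) (x y : Σ a, Fin (m a)) : ZMod 2 :=
  if h : y.1 = x.1 then gg (fun e => s ⟨x.1, e⟩) x.2 (h ▸ y.2) else 0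

theorem sm_mk (s : (Σ a, prs (Fin (m a))) → ZMod 2) (a : I) (i j : Fin (m a)) :
    sm s ⟨a, i⟩ ⟨a, j⟩ = gg (fun e => s ⟨a, e⟩) i j := by
  unfold sm
  simp

theorem sm_ne (s : (Σ a, prs (Fin (m a))) → ZMod 2) (x y : Σ a, Fin (m a)) (h : x.1 ≠ y.1) :
    sm s x y = 0 := by
  unfold sm
  rw [dif_neg fun h' => h h'.symm]

theorem sm_symm (s : (Σ a, prs (Fin (m a))) → ZMod 2) (x y : Σ a, Fin (m a)) :
    sm s x y = sm s y x := by
  obtain ⟨a, i⟩ := x
  obtain ⟨b, j⟩ := y
  by_cases h : a = b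
  · subst h
    rw [sm_mk, sm_mk, gg_symm]
  · rw [sm_ne s _ _ h, sm_ne s _ _ (fun h' => h h'.symm)]

theorem sm_self (s : (Σ a, prs (Fin (m a))) → ZMod 2) (x : Σ a, Fin (m a)) :
    sm s x x = 0 := by
  obtain ⟨a, i⟩ := x
  rw [sm_mk, gg_self]

theorem sm_pos (s : (Σ a, prs (Fin (m a))) → ZMod 2) (e : Σ a, prs (Fin (m a))) :
    sm s ⟨e.1, e.2.1.1⟩ ⟨e.1, e.2.1.2⟩ = s e := by
  rw [sm_mk, gg_pos]

/-- every symmetric matrix with zero diagonal that vanishes for different types is of this form -/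
theorem sm_surj (G : (Σ a, Fin (m a)) → (Σ a, Fin (m a)) → ZMod 2) (hs : ∀ x y, G x y = G y x)
    (h0 : ∀ x, G x x = 0) (h1 : ∀ x y, x.1 ≠ y.1 → G x y = 0) (x y : Σ a, Fin (m a)) :
    sm (fun e => G ⟨e.1, e.2.1.1⟩ ⟨e.1, e.2.1.2⟩) x y = G x y := by
  obtain ⟨a, i⟩ := x
  obtain ⟨b, j⟩ := y
  by_cases h : a = b
  · subst h
    rw [sm_mk]
    rcases lt_trichotomy i j with h | h | h
    · exact gg_pos _ ⟨(i, j), mem_prs.2 h⟩
    · subst h
      rw [gg_self, h0]
    · rw [gg_symm, hs]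
      exact gg_pos _ ⟨(j, i), mem_prs.2 h⟩
  · rw [sm_ne _ _ _ h, h1 _ _ h]

theorem sum_sm (s : (Σ a, prs (Fin (m a))) → ZMod 2) (x : Σ a, Fin (m a))
    (F : (Σ a, Fin (m a)) → ZMod 2) :
    ∑ y, sm s x y * F y = ∑ j, gg (fun e => s ⟨x.1, e⟩) x.2 j * F ⟨x.1, j⟩ := by
  rw [Fintype.sum_sigma, Finset.sum_eq_single x.1]
  · refine Finset.sum_congr rfl fun j _ => ?_
    obtain ⟨a, i⟩ := x
    rw [sm_mk]
  · intro b _ hb
    refine Finset.sum_eq_zero fun j _ => ?_
    rw [sm_ne s x ⟨b, j⟩ hb.symm, zero_mul]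
  · intro h
    exact absurd (Finset.mem_univ _) h

end mats

/-! ### the structure of the transposed system -/

section struct

variable {I Q J : Type} [Fintype I] [Fintype Q] [Fintype J] [LinearOrder J]
  {E : I → Finset Q} {g : J → Q} {m : I → ℕ} {d : (Σ a, Fin (m a)) → J → ZMod 2}

theorem mem_Lc {a : I} {k : J} : k ∈ Lc E g a ↔ g k ∈ E a := by
  unfold Lc
  simp

/-- the solutions of the transposed system -/
noncomputable def yC (d : (Σ a, Fin (m a)) → J → ZMod 2)
    (s : (Σ a, prs (Fin (m a))) → ZMod 2) (κ : (Σ a, Fin (m a)) → ZMod 2)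
    (x : Σ a, Fin (m a)) (k : J) : ZMod 2 := ∑ w, sm s x w * d w k + κ x

/-- the coefficients -/
noncomputable def CC (E : I → Finset Q) (g : J → Q) (d y : (Σ a, Fin (m a)) → J → ZMod 2)
    (k l : J) : ZMod 2 :=
  ∑ x, if k ∈ Lc E g x.1 ∧ l ∈ Lc E g x.1 then (y x k + y x l) * (d x k + d x l) else 0

theorem yC_sub (s : (Σ a, prs (Fin (m a))) → ZMod 2) (κ : (Σ a, Fin (m a)) → ZMod 2)
    (x : Σ a, Fin (m a)) (k l : J) : yC d s κ x k + yC d s κ x l =
      ∑ w, sm s x w * (d w k + d w l) := by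
  unfold yC
  simp only [mul_add, Finset.sum_add_distrib]
  linear_combination (κ x) * two0

theorem swap3 {P X : Type} [Fintype P] [Fintype X] (c : P → P → ZMod 2)
    (F : P → P → X → ZMod 2) :
    ∑ p, ∑ r, c p r * ∑ x, F p r x = ∑ x, ∑ p, ∑ r, c p r * F p r x := by
  have h1 : ∀ p, ∑ r, c p r * ∑ x, F p r x = ∑ x, ∑ r, c p r * F p r x := by
    intro p
    simp only [Finset.mul_sum]
    rw [Finset.sum_comm]
  rw [Finset.sum_congr rfl fun p _ => h1 p, Finset.sum_comm]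

theorem swap2 {P X : Type} [Fintype P] [Fintype X] (c : P → ZMod 2)
    (F : P → X → ZMod 2) :
    ∑ p, c p * ∑ x, F p x = ∑ x, ∑ p, c p * F p x := by
  simp only [Finset.mul_sum]
  rw [Finset.sum_comm]

/-- a quadratic form vanishes -/
theorem quad0 (G : (Σ a, Fin (m a)) → (Σ a, Fin (m a)) → ZMod 2) (hs : ∀ x y, G x y = G y x)
    (h0 : ∀ x, G x x = 0) (h1 : ∀ x y, x.1 ≠ y.1 → G x y = 0) (P : I → Prop)
    [DecidablePred P] (v : (Σ a, Fin (m a)) → ZMod 2) :
    ∑ x, (if P x.1 then (∑ w, G x w * v w) * v x else 0) = 0 := by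
  have e1 : ∀ x, (if P x.1 then (∑ w, G x w * v w) * v x else 0) =
      ∑ w, if P x.1 then G x w * v w * v x else 0 := by
    intro x
    split_ifs
    · rw [Finset.sum_mul]
    · simp
  rw [Finset.sum_congr rfl fun x _ => e1 x]
  refine sum_sym _ (fun x w => ?_) fun x => ?_
  · by_cases h : x.1 = w.1
    · rw [h, hs x w]
      split_ifs
      · ring
      · rfl
    · rw [h1 x w h, h1 w x (fun h' => h h'.symm)]
      simp
  · rw [h0]
    simp

theorem CC_yC (s : (Σ a, prs (Fin (m a))) → ZMod 2) (κ : (Σ a, Fin (m a)) → ZMod 2)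
    (k l : J) : CC E g d (yC d s κ) k l = 0 := by
  unfold CC
  simp only [yC_sub]
  exact quad0 (sm s) (sm_symm s) (sm_self s) (sm_ne s)
    (fun a => k ∈ Lc E g a ∧ l ∈ Lc E g a) (fun w => d w k + d w l)

theorem yC_inj (hE : Fam E) (hd : StrC E g d) {s s' : (Σ a, prs (Fin (m a))) → ZMod 2}
    {κ κ' : (Σ a, Fin (m a)) → ZMod 2}
    (h : ∀ x, ∀ k ∈ Lc E g x.1, yC d s κ x k = yC d s' κ' x k) : s = s' ∧ κ = κ' := by
  have h1 : ∀ x w, sm s x w = sm s' x w := by
    intro x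
    obtain ⟨q, hq⟩ := hE.ne x.1
    by_contra hne
    push Not at hne
    obtain ⟨w0, hw0⟩ := hne
    obtain ⟨k, l, hk, hl, hkl⟩ := hd q (fun w => sm s x w + sm s' x w) (by
      intro w hw
      have h2 : x.1 ≠ w.1 := by
        intro h3
        rw [h3] at hq
        exact hw hq
      show sm s x w + sm s' x w = 0
      rw [sm_ne s x w h2, sm_ne s' x w h2, add_zero]) ⟨w0, fun h2 => hw0 (add_eq0.1 h2)⟩
    apply hkl
    have h3 := yC_sub (d := d) s κ x k l
    have h4 := yC_sub (d := d) s' κ' x k l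
    have hkL : k ∈ Lc E g x.1 := mem_Lc.2 (hk ▸ hq)
    have hlL : l ∈ Lc E g x.1 := mem_Lc.2 (hl ▸ hq)
    rw [h x k hkL, h x l hlL, h4] at h3
    simp only [add_mul, Finset.sum_add_distrib]
    rw [h3]
    exact add_self0 _
  have h2 : s = s' := by
    funext e
    rw [← sm_pos s e, ← sm_pos s' e, h1]
  refine ⟨h2, ?_⟩
  subst h2
  funext x
  obtain ⟨q, hq⟩ := hE.ne x.1
  obtain ⟨k, l, hk, hl, hkl⟩ := hd q (Pi.single x 1) (by
    intro w hw
    rw [Pi.single_eq_of_ne]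
    rintro rfl
    exact hw hq) ⟨x, by rw [Pi.single_eq_same]; decide⟩
  have hkL : k ∈ Lc E g x.1 := mem_Lc.2 (hk ▸ hq)
  have h4 := h x k hkL
  unfold yC at h4
  exact add_left_cancel h4

/-- dual vectors of one colour -/
theorem dualC (hd : StrC E g d) (q : Q) :
    ∃ b : (Σ a, Fin (m a)) → J × J → ZMod 2,
      (∀ x p, ¬ (g p.1 = q ∧ g p.2 = q) → b x p = 0) ∧
      ∀ x z : (Σ a, Fin (m a)), q ∈ E x.1 → q ∈ E z.1 →
        ∑ p, b z p * (d x p.1 + d x p.2) = if x = z then 1 else 0 := by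
  let X := {x : (Σ a, Fin (m a)) // q ∈ E x.1}
  let f : (X → ZMod 2) →ₗ[ZMod 2] (J × J → ZMod 2) :=
    { toFun := fun a p => if g p.1 = q ∧ g p.2 = q then ∑ i : X, a i * (d i.1 p.1 + d i.1 p.2) else 0
      map_add' := fun a b => by
        funext p
        simp only [Pi.add_apply, add_mul, Finset.sum_add_distrib]
        split_ifs
        · rfl
        · rw [add_zero]
      map_smul' := fun z a => by
        funext p
        simp only [Pi.smul_apply, smul_eq_mul, RingHom.id_apply, mul_assoc]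
        split_ifs
        · rw [Finset.mul_sum]
        · rw [mul_zero] }
  have hf : LinearMap.ker f = ⊥ := by
    rw [LinearMap.ker_eq_bot']
    intro a ha
    by_contra hne
    have h1 : ∃ i, a i ≠ 0 := by
      by_contra h2
      push Not at h2
      exact hne (funext h2)
    obtain ⟨i0, hi0⟩ := h1
    obtain ⟨k, l, hk, hl, hkl⟩ := hd q (fun x => if hx : q ∈ E x.1 then a ⟨x, hx⟩ else 0)
      (fun x hx => dif_neg hx) ⟨i0.1, by rw [dif_pos i0.2]; exact hi0⟩
    apply hkl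
    have h3 : f a (k, l) = 0 := by rw [ha]; rfl
    have h4 : f a (k, l) = ∑ i : X, a i * (d i.1 k + d i.1 l) := if_pos ⟨hk, hl⟩
    rw [h4] at h3
    refine Eq.trans ?_ h3
    have h5 : ∑ x : (Σ a, Fin (m a)), (if hx : q ∈ E x.1 then a ⟨x, hx⟩ else 0) *
        (d x k + d x l) = ∑ x ∈ univ.filter (fun x : (Σ a, Fin (m a)) => q ∈ E x.1),
          (if hx : q ∈ E x.1 then a ⟨x, hx⟩ else 0) * (d x k + d x l) := by
      rw [Finset.sum_filter]
      refine Finset.sum_congr rfl fun x _ => ?_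
      split_ifs
      · rfl
      · rw [zero_mul]
    rw [h5, Finset.sum_subtype (p := fun x : (Σ a, Fin (m a)) => q ∈ E x.1)
      (univ.filter (fun x : (Σ a, Fin (m a)) => q ∈ E x.1)) (by intro x; simp)]
    refine Finset.sum_congr rfl fun x _ => ?_
    rw [dif_pos x.2]
  obtain ⟨gL, hg⟩ := f.exists_leftInverse_of_injective hf
  refine ⟨fun z p => if g p.1 = q ∧ g p.2 = q then
    (if hz : q ∈ E z.1 then gL (Pi.single p 1) ⟨z, hz⟩ else 0) else 0,
    fun x p hp => if_neg hp, fun x z hx hz => ?_⟩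
  have h1 : gL (f (Pi.single ⟨x, hx⟩ 1)) = Pi.single ⟨x, hx⟩ 1 :=
    LinearMap.congr_fun hg (Pi.single ⟨x, hx⟩ 1)
  have h2 : f (Pi.single ⟨x, hx⟩ 1) = ∑ p, (if g p.1 = q ∧ g p.2 = q then
      (d x p.1 + d x p.2) else 0) • (Pi.single p 1 : J × J → ZMod 2) := by
    funext r
    change (if g r.1 = q ∧ g r.2 = q then ∑ i : X, (Pi.single ⟨x, hx⟩ 1 : X → ZMod 2) i *
      (d i.1 r.1 + d i.1 r.2) else 0) = _
    rw [Finset.sum_eq_single (⟨x, hx⟩ : X) (fun b _ hb => by rw [Pi.single_eq_of_ne hb, zero_mul])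
      (fun h => absurd (Finset.mem_univ _) h), Pi.single_eq_same, one_mul]
    rw [Finset.sum_apply, Finset.sum_eq_single r]
    · rw [Pi.smul_apply, Pi.single_eq_same, smul_eq_mul, mul_one]
    · intro b _ hb
      rw [Pi.smul_apply, Pi.single_eq_of_ne (Ne.symm hb), smul_zero]
    · intro h
      exact absurd (Finset.mem_univ _) h
  rw [h2, map_sum] at h1
  have h3 := congrFun h1 ⟨z, hz⟩
  rw [Finset.sum_apply] at h3
  have h4 : ∑ p : J × J, (if g p.1 = q ∧ g p.2 = q then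
      (if hz : q ∈ E z.1 then gL (Pi.single p 1) ⟨z, hz⟩ else 0) else 0) * (d x p.1 + d x p.2) =
      ∑ p, (gL ((if g p.1 = q ∧ g p.2 = q then
      (d x p.1 + d x p.2) else 0) • (Pi.single p 1 : J × J → ZMod 2))) ⟨z, hz⟩ := by
    refine Finset.sum_congr rfl fun p _ => ?_
    rw [map_smul, Pi.smul_apply, smul_eq_mul, dif_pos hz]
    split_ifs
    · rw [mul_comm]
    · rw [zero_mul, zero_mul]
  rw [h4, h3]
  by_cases h : x = z
  · subst h
    rw [Pi.single_eq_same, if_pos rfl]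
  · rw [Pi.single_eq_of_ne, if_neg h]
    intro h'
    exact h (congrArg Subtype.val h').symm

theorem yC_surj (hE : Fam E) (hd : StrC E g d) (y : (Σ a, Fin (m a)) → J → ZMod 2)
    (hy : ∀ e ∈ prs J, CC E g d y e.1 e.2 = 0) :
    ∃ (s : (Σ a, prs (Fin (m a))) → ZMod 2) (κ : (Σ a, Fin (m a)) → ZMod 2),
      ∀ x, ∀ k ∈ Lc E g x.1, yC d s κ x k = y x k := by
  -- the coefficients for all pairs
  have hC : ∀ k l, ∑ x : (Σ a, Fin (m a)), (if g k ∈ E x.1 ∧ g l ∈ E x.1 then
      (y x k + y x l) * (d x k + d x l) else 0) = 0 := by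
    have h0 : ∀ k l, CC E g d y k l = ∑ x : (Σ a, Fin (m a)),
        (if g k ∈ E x.1 ∧ g l ∈ E x.1 then (y x k + y x l) * (d x k + d x l) else 0) := by
      intro k l
      unfold CC
      refine Finset.sum_congr rfl fun x _ => ?_
      simp only [mem_Lc]
    intro k l
    rcases lt_trichotomy k l with h | h | h
    · rw [← h0]
      exact hy (k, l) (mem_prs.2 h)
    · subst h
      simp only [add_self0, mul_zero, ite_self, Finset.sum_const_zero]
    · have h1 := hy (l, k) (mem_prs.2 h)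
      rw [h0] at h1
      refine Eq.trans ?_ h1
      refine Finset.sum_congr rfl fun x _ => ?_
      by_cases h2 : g k ∈ E x.1 <;> by_cases h3 : g l ∈ E x.1 <;> simp [h2, h3]
      ring
  have star2 : ∀ (q q' : Q) (p r : J × J), g p.1 = q → g p.2 = q → g r.1 = q' → g r.2 = q' →
      ∑ x : (Σ a, Fin (m a)), (if q ∈ E x.1 ∧ q' ∈ E x.1 then
        (y x p.1 + y x p.2) * (d x r.1 + d x r.2) + (y x r.1 + y x r.2) * (d x p.1 + d x p.2)
        else 0) = 0 := by
    intro q q' p r h1 h2 h3 h4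
    have e1 := hC p.1 r.1
    have e2 := hC p.1 r.2
    have e3 := hC p.2 r.1
    have e4 := hC p.2 r.2
    rw [h1, h3] at e1
    rw [h1, h4] at e2
    rw [h2, h3] at e3
    rw [h2, h4] at e4
    have e5 : ∑ x : (Σ a, Fin (m a)), (if q ∈ E x.1 ∧ q' ∈ E x.1 then
        (y x p.1 + y x p.2) * (d x r.1 + d x r.2) + (y x r.1 + y x r.2) * (d x p.1 + d x p.2)
        else 0) =
        ∑ x : (Σ a, Fin (m a)), (if q ∈ E x.1 ∧ q' ∈ E x.1 then
          (y x p.1 + y x r.1) * (d x p.1 + d x r.1) else 0) +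
        ∑ x : (Σ a, Fin (m a)), (if q ∈ E x.1 ∧ q' ∈ E x.1 then
          (y x p.1 + y x r.2) * (d x p.1 + d x r.2) else 0) +
        ∑ x : (Σ a, Fin (m a)), (if q ∈ E x.1 ∧ q' ∈ E x.1 then
          (y x p.2 + y x r.1) * (d x p.2 + d x r.1) else 0) +
        ∑ x : (Σ a, Fin (m a)), (if q ∈ E x.1 ∧ q' ∈ E x.1 then
          (y x p.2 + y x r.2) * (d x p.2 + d x r.2) else 0) := by
      rw [← Finset.sum_add_distrib, ← Finset.sum_add_distrib, ← Finset.sum_add_distrib]
      refine Finset.sum_congr rfl fun x _ => ?_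
      split_ifs
      · linear_combination (-(y x p.1 * d x p.1 + y x p.2 * d x p.2 + y x r.1 * d x r.1 +
          y x r.2 * d x r.2)) * two0
      · simp
    rw [e5, e1, e2, e3, e4]
    simp
  choose b hb0 hb1 using fun q => dualC hd q
  obtain ⟨G, hG⟩ : ∃ G : Q → (Σ a, Fin (m a)) → (Σ a, Fin (m a)) → ZMod 2, G = fun q z w =>
    ∑ p, b q z p * (y w p.1 + y w p.2) := ⟨_, rfl⟩
  have hG' : ∀ q z w, ∑ p, b q z p * (y w p.1 + y w p.2) = G q z w := fun q z w => by rw [hG]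
  have star3 : ∀ (q q' : Q) (z w : (Σ a, Fin (m a))), q ∈ E z.1 → q' ∈ E w.1 →
      (if q ∈ E w.1 then G q z w else 0) + (if q' ∈ E z.1 then G q' w z else 0) = 0 := by
    intro q q' z w hz hw
    have e1 : ∑ p, ∑ r, b q z p * b q' w r * ∑ x : (Σ a, Fin (m a)),
        (if q ∈ E x.1 ∧ q' ∈ E x.1 then (y x p.1 + y x p.2) * (d x r.1 + d x r.2) +
          (y x r.1 + y x r.2) * (d x p.1 + d x p.2) else 0) = 0 := by
      refine Finset.sum_eq_zero fun p _ => Finset.sum_eq_zero fun r _ => ?_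
      by_cases hp : g p.1 = q ∧ g p.2 = q
      · by_cases hr : g r.1 = q' ∧ g r.2 = q'
        · rw [star2 q q' p r hp.1 hp.2 hr.1 hr.2, mul_zero]
        · rw [hb0 q' w r hr, mul_zero, zero_mul]
      · rw [hb0 q z p hp, zero_mul, zero_mul]
    rw [swap3 (fun p r => b q z p * b q' w r)] at e1
    have e3 : ∀ x : (Σ a, Fin (m a)), ∑ p, ∑ r, b q z p * b q' w r *
        (if q ∈ E x.1 ∧ q' ∈ E x.1 then (y x p.1 + y x p.2) * (d x r.1 + d x r.2) +
          (y x r.1 + y x r.2) * (d x p.1 + d x p.2) else 0) =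
        (if x = w then (if q ∈ E w.1 then G q z w else 0) else 0) +
        (if x = z then (if q' ∈ E z.1 then G q' w z else 0) else 0) := by
      intro x
      by_cases hc : q ∈ E x.1 ∧ q' ∈ E x.1
      · simp only [if_pos hc]
        have e4 : ∑ p, ∑ r, b q z p * b q' w r * ((y x p.1 + y x p.2) * (d x r.1 + d x r.2) +
            (y x r.1 + y x r.2) * (d x p.1 + d x p.2)) =
            (∑ p, b q z p * (y x p.1 + y x p.2)) * (∑ r, b q' w r * (d x r.1 + d x r.2)) +
            (∑ p, b q z p * (d x p.1 + d x p.2)) * (∑ r, b q' w r * (y x r.1 + y x r.2)) := by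
          rw [Finset.sum_mul_sum, Finset.sum_mul_sum, ← Finset.sum_add_distrib]
          refine Finset.sum_congr rfl fun p _ => ?_
          rw [← Finset.sum_add_distrib]
          refine Finset.sum_congr rfl fun r _ => ?_
          ring
        rw [e4, hb1 q' x w hc.2 hw, hb1 q x z hc.1 hz, hG', hG']
        congr 1
        · by_cases hxw : x = w
          · subst hxw
            rw [if_pos rfl, if_pos rfl, if_pos hc.1, mul_one]
          · rw [if_neg hxw, if_neg hxw, mul_zero]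
        · by_cases hxz : x = z
          · subst hxz
            rw [if_pos rfl, if_pos rfl, if_pos hc.2, one_mul]
          · rw [if_neg hxz, if_neg hxz, zero_mul]
      · simp only [if_neg hc, mul_zero, Finset.sum_const_zero]
        symm
        by_cases hxw : x = w
        · subst hxw
          by_cases hxz : x = z
          · subst hxz
            exact absurd ⟨hz, hw⟩ hc
          · rw [if_pos rfl, if_neg hxz, if_neg (fun h => hc ⟨h, hw⟩), add_zero]
        · by_cases hxz : x = z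
          · subst hxz
            rw [if_neg hxw, if_pos rfl, if_neg (fun h => hc ⟨hz, h⟩), add_zero]
          · rw [if_neg hxw, if_neg hxz, add_zero]
    rw [Finset.sum_congr rfl fun x _ => e3 x, Finset.sum_add_distrib, Finset.sum_ite_eq',
      Finset.sum_ite_eq', if_pos (Finset.mem_univ _), if_pos (Finset.mem_univ _)] at e1
    exact e1
  -- the differences of `y` for one colour
  have hH : ∀ (q : Q) (z : (Σ a, Fin (m a))) (p : J × J), q ∈ E z.1 → g p.1 = q → g p.2 = q →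
      y z p.1 + y z p.2 =
        ∑ w : (Σ a, Fin (m a)), (if q ∈ E w.1 then G q z w * (d w p.1 + d w p.2) else 0) := by
    intro q z p hz h1 h2
    have e1 : ∑ r, b q z r * ∑ x : (Σ a, Fin (m a)),
        (if q ∈ E x.1 ∧ q ∈ E x.1 then (y x p.1 + y x p.2) * (d x r.1 + d x r.2) +
          (y x r.1 + y x r.2) * (d x p.1 + d x p.2) else 0) = 0 := by
      refine Finset.sum_eq_zero fun r _ => ?_
      by_cases hr : g r.1 = q ∧ g r.2 = q
      · rw [star2 q q p r h1 h2 hr.1 hr.2, mul_zero]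
      · rw [hb0 q z r hr, zero_mul]
    rw [swap2 (fun r => b q z r)] at e1
    have e3 : ∀ x : (Σ a, Fin (m a)), ∑ r, b q z r *
        (if q ∈ E x.1 ∧ q ∈ E x.1 then (y x p.1 + y x p.2) * (d x r.1 + d x r.2) +
          (y x r.1 + y x r.2) * (d x p.1 + d x p.2) else 0) =
        (if x = z then (y z p.1 + y z p.2) else 0) +
        (if q ∈ E x.1 then G q z x * (d x p.1 + d x p.2) else 0) := by
      intro x
      by_cases hc : q ∈ E x.1
      · simp only [and_self, if_pos hc]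
        have e4 : ∑ r, b q z r * ((y x p.1 + y x p.2) * (d x r.1 + d x r.2) +
            (y x r.1 + y x r.2) * (d x p.1 + d x p.2)) =
            (y x p.1 + y x p.2) * (∑ r, b q z r * (d x r.1 + d x r.2)) +
            (∑ r, b q z r * (y x r.1 + y x r.2)) * (d x p.1 + d x p.2) := by
          rw [Finset.mul_sum, Finset.sum_mul, ← Finset.sum_add_distrib]
          refine Finset.sum_congr rfl fun r _ => ?_
          ring
        rw [e4, hb1 q x z hc hz, hG']
        congr 1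
        by_cases hxz : x = z
        · subst hxz
          rw [if_pos rfl, if_pos rfl, mul_one]
        · rw [if_neg hxz, if_neg hxz, mul_zero]
      · simp only [and_self, if_neg hc, mul_zero, Finset.sum_const_zero]
        rw [if_neg, add_zero]
        rintro rfl
        exact hc hz
    rw [Finset.sum_congr rfl fun x _ => e3 x, Finset.sum_add_distrib, Finset.sum_ite_eq',
      if_pos (Finset.mem_univ _)] at e1
    exact add_eq0.1 e1
  -- zero diagonal
  have hG0 : ∀ (q : Q) (z : (Σ a, Fin (m a))), q ∈ E z.1 → G q z z = 0 := by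
    intro q z hz
    obtain ⟨S, hS⟩ : ∃ S : J × J → J × J → ZMod 2, S = fun p r =>
      ∑ x : (Σ a, Fin (m a)), (if q ∈ E x.1 then (y x p.1 + y x p.2) * (d x r.1 + d x r.2)
        else 0) := ⟨_, rfl⟩
    have hSs : ∀ p r : J × J, g p.1 = q → g p.2 = q → g r.1 = q → g r.2 = q →
        S p r = S r p := by
      intro p r h1 h2 h3 h4
      rw [← add_eq0]
      have e1 := star2 q q p r h1 h2 h3 h4
      rw [hS]
      beta_reduce
      rw [← Finset.sum_add_distrib]
      refine Eq.trans ?_ e1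
      refine Finset.sum_congr rfl fun x _ => ?_
      by_cases hc : q ∈ E x.1 <;> simp [hc]
    have hS0 : ∀ p : J × J, g p.1 = q → g p.2 = q → S p p = 0 := by
      intro p h1 h2
      have e1 := hC p.1 p.2
      rw [h1, h2] at e1
      rw [hS]
      beta_reduce
      refine Eq.trans ?_ e1
      refine Finset.sum_congr rfl fun x _ => ?_
      by_cases hc : q ∈ E x.1 <;> simp [hc]
    have hSb : ∀ p : J × J, ∑ r, b q z r * S p r = y z p.1 + y z p.2 := by
      intro p
      rw [hS]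
      beta_reduce
      rw [swap2 (fun r => b q z r)]
      have e3 : ∀ x : (Σ a, Fin (m a)), ∑ r, b q z r *
          (if q ∈ E x.1 then (y x p.1 + y x p.2) * (d x r.1 + d x r.2) else 0) =
          (if x = z then (y z p.1 + y z p.2) else 0) := by
        intro x
        by_cases hc : q ∈ E x.1
        · simp only [if_pos hc]
          have e4 : ∑ r, b q z r * ((y x p.1 + y x p.2) * (d x r.1 + d x r.2)) =
              (y x p.1 + y x p.2) * (∑ r, b q z r * (d x r.1 + d x r.2)) := by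
            rw [Finset.mul_sum]
            refine Finset.sum_congr rfl fun r _ => ?_
            ring
          rw [e4, hb1 q x z hc hz]
          by_cases hxz : x = z
          · subst hxz
            rw [if_pos rfl, if_pos rfl, mul_one]
          · rw [if_neg hxz, if_neg hxz, mul_zero]
        · simp only [if_neg hc, mul_zero, Finset.sum_const_zero]
          rw [if_neg]
          rintro rfl
          exact hc hz
      rw [Finset.sum_congr rfl fun x _ => e3 x, Finset.sum_ite_eq', if_pos (Finset.mem_univ _)]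
    have h1 : G q z z = ∑ p, ∑ r, b q z p * (b q z r * S p r) := by
      rw [← hG']
      refine Finset.sum_congr rfl fun p _ => ?_
      rw [← hSb, Finset.mul_sum]
    rw [h1]
    refine sum_sym _ (fun p r => ?_) fun p => ?_
    · by_cases hp : g p.1 = q ∧ g p.2 = q
      · by_cases hr : g r.1 = q ∧ g r.2 = q
        · rw [hSs p r hp.1 hp.2 hr.1 hr.2]
          ring
        · rw [hb0 q z r hr]
          ring
      · rw [hb0 q z p hp]
        ring
    · by_cases hp : g p.1 = q ∧ g p.2 = q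
      · rw [hS0 p hp.1 hp.2]
        ring
      · rw [hb0 q z p hp]
        ring
  have hGs : ∀ (q : Q) (z w : (Σ a, Fin (m a))), q ∈ E z.1 → q ∈ E w.1 →
      G q z w = G q w z := by
    intro q z w hz hw
    have h1 := star3 q q z w hz hw
    rw [if_pos hw, if_pos hz] at h1
    exact add_eq0.1 h1
  have hGsub : ∀ (q : Q) (z w : (Σ a, Fin (m a))), q ∈ E z.1 → q ∈ E w.1 → G q z w ≠ 0 →
      E w.1 ⊆ E z.1 := by
    intro q z w hz hw hne q' hq'
    by_contra h
    have h1 := star3 q q' z w hz hq'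
    rw [if_pos hw, if_neg h, add_zero] at h1
    exact hne h1
  have hGt : ∀ (q : Q) (z w : (Σ a, Fin (m a))), q ∈ E z.1 → q ∈ E w.1 → z.1 ≠ w.1 →
      G q z w = 0 := by
    intro q z w hz hw hne
    by_contra h
    apply hne
    apply hE.inj
    apply Finset.Subset.antisymm
    · exact hGsub q w z hw hz (by rw [← hGs q z w hz hw]; exact h)
    · exact hGsub q z w hz hw h
  have hGi : ∀ (q q' : Q) (z w : (Σ a, Fin (m a))), q ∈ E z.1 → q' ∈ E z.1 → z.1 = w.1 →
      G q z w = G q' z w := by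
    intro q q' z w hz hz' h
    have hw : q ∈ E w.1 := h ▸ hz
    have hw' : q' ∈ E w.1 := h ▸ hz'
    have h1 := star3 q q' z w hz hw'
    rw [if_pos hw, if_pos hz'] at h1
    rw [add_eq0.1 h1]
    exact hGs q' w z hw' hz'
  choose qq hqq using hE.ne
  obtain ⟨Gd, hGd⟩ : ∃ Gd : (Σ a, Fin (m a)) → (Σ a, Fin (m a)) → ZMod 2, Gd = fun x w =>
    if x.1 = w.1 then G (qq x.1) x w else 0 := ⟨_, rfl⟩
  have hGd1 : ∀ x w, x.1 ≠ w.1 → Gd x w = 0 := by
    intro x w h
    rw [hGd]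
    exact if_neg h
  have hGd0 : ∀ x, Gd x x = 0 := by
    intro x
    rw [hGd]
    beta_reduce
    rw [if_pos rfl]
    exact hG0 _ _ (hqq _)
  have hGds : ∀ x w, Gd x w = Gd w x := by
    intro x w
    by_cases h : x.1 = w.1
    · rw [hGd]
      beta_reduce
      rw [if_pos h, if_pos h.symm, hGs (qq x.1) x w (hqq _) (by rw [← h]; exact hqq _), h]
    · rw [hGd1 x w h, hGd1 w x (fun h' => h h'.symm)]
  have hGde : ∀ (q : Q) (x w : (Σ a, Fin (m a))), q ∈ E x.1 →
      (if q ∈ E w.1 then G q x w else 0) = Gd x w := by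
    intro q x w hx
    by_cases h : x.1 = w.1
    · rw [if_pos (h ▸ hx), hGd]
      beta_reduce
      rw [if_pos h]
      exact hGi q (qq x.1) x w hx (hqq _) h
    · rw [hGd1 x w h]
      split_ifs with hw
      · exact hGt q x w hx hw h
      · rfl
  have hH' : ∀ (q : Q) (z : (Σ a, Fin (m a))) (k l : J), q ∈ E z.1 → g k = q → g l = q →
      y z k + y z l = ∑ w, Gd z w * (d w k + d w l) := by
    intro q z k l hz h1 h2
    rw [hH q z (k, l) hz h1 h2]
    refine Finset.sum_congr rfl fun w _ => ?_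
    rw [← hGde q z w hz]
    split_ifs
    · rfl
    · rw [zero_mul]
  obtain ⟨ee, hee⟩ : ∃ ee : (Σ a, Fin (m a)) → J → ZMod 2, ee = fun x k =>
    y x k + ∑ w, Gd x w * d w k := ⟨_, rfl⟩
  have hee' : ∀ x k, ee x k = y x k + ∑ w, Gd x w * d w k := fun x k => by rw [hee]
  have hyee : ∀ x k l, y x k + y x l = ee x k + ee x l + ∑ w, Gd x w * (d w k + d w l) := by
    intro x k l
    rw [hee', hee']
    simp only [mul_add, Finset.sum_add_distrib]
    linear_combination (-(∑ w, Gd x w * d w k) - ∑ w, Gd x w * d w l) * two0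
  have hsame : ∀ (x : (Σ a, Fin (m a))) (k l : J), g k ∈ E x.1 → g k = g l →
      ee x k = ee x l := by
    intro x k l hk hkl
    have h1 := hH' (g k) x k l hk rfl hkl.symm
    rw [hyee x k l] at h1
    rw [← add_eq0]
    linear_combination h1
  have hdiff : ∀ (k l : J) (x : (Σ a, Fin (m a))), g k ∈ E x.1 → g l ∈ E x.1 →
      ee x k = ee x l := by
    intro k l x0 hk0 hl0
    by_contra hne
    obtain ⟨v, hv⟩ : ∃ v : (Σ a, Fin (m a)) → ZMod 2, v = fun x =>
      if g k ∈ E x.1 ∧ g l ∈ E x.1 then ee x k + ee x l else 0 := ⟨_, rfl⟩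
    have hT : ∀ k', g k' = g k → ∑ x, v x * (d x k' + d x l) = 0 := by
      intro k' hk'
      have h1 := hC k' l
      have h2 := quad0 (m := m) Gd hGds hGd0 hGd1 (fun a => g k' ∈ E a ∧ g l ∈ E a)
        (fun w => d w k' + d w l)
      have h3 : ∑ x, v x * (d x k' + d x l) =
          ∑ x : (Σ a, Fin (m a)), (if g k' ∈ E x.1 ∧ g l ∈ E x.1 then
            (y x k' + y x l) * (d x k' + d x l) else 0) +
          ∑ x : (Σ a, Fin (m a)), (if g k' ∈ E x.1 ∧ g l ∈ E x.1 then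
            (∑ w, Gd x w * (d w k' + d w l)) * (d x k' + d x l) else 0) := by
        rw [← Finset.sum_add_distrib]
        refine Finset.sum_congr rfl fun x _ => ?_
        rw [hv]
        beta_reduce
        rw [hk']
        split_ifs with hc
        · rw [hyee x k' l, hsame x k' k (hk' ▸ hc.1) hk']
          linear_combination (-(∑ w, Gd x w * (d w k' + d w l)) * (d x k' + d x l)) * two0
        · ring
      rw [h3, h1, h2, add_zero]
    obtain ⟨k1, l1, hk1, hl1, hkl⟩ := hd (g k) v (by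
      intro x hx
      rw [hv]
      exact if_neg fun h => hx h.1) ⟨x0, by
        rw [hv]
        beta_reduce
        rw [if_pos ⟨hk0, hl0⟩]
        exact fun h => hne (add_eq0.1 h)⟩
    apply hkl
    have h1 := hT k1 hk1
    have h2 := hT l1 hl1
    have h3 : ∑ x, v x * (d x k1 + d x l1) =
        ∑ x, v x * (d x k1 + d x l) + ∑ x, v x * (d x l1 + d x l) := by
      rw [← Finset.sum_add_distrib]
      refine Finset.sum_congr rfl fun x _ => ?_
      linear_combination (-(v x * d x l)) * two0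
    rw [h3, h1, h2, add_zero]
  refine ⟨fun e => Gd ⟨e.1, e.2.1.1⟩ ⟨e.1, e.2.1.2⟩,
    fun x => if h : ∃ k, g k ∈ E x.1 then ee x h.choose else 0, ?_⟩
  intro x k hk
  rw [mem_Lc] at hk
  have hex : ∃ k, g k ∈ E x.1 := ⟨k, hk⟩
  unfold yC
  simp only [dif_pos hex]
  rw [hdiff hex.choose k x hex.choose_spec hk, hee']
  have h1 : ∀ w, sm (fun e => Gd ⟨e.1, e.2.1.1⟩ ⟨e.1, e.2.1.2⟩) x w = Gd x w := fun w =>
    sm_surj Gd hGds hGd0 hGd1 x w
  simp only [h1]
  linear_combination (∑ w, Gd x w * d w k) * two0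

theorem CC_congr {y y' : (Σ a, Fin (m a)) → J → ZMod 2}
    (h : ∀ x, ∀ k ∈ Lc E g x.1, y x k = y' x k) (k l : J) : CC E g d y k l = CC E g d y' k l := by
  unfold CC
  refine Finset.sum_congr rfl fun x _ => ?_
  split_ifs with hc
  · rw [h x k hc.1, h x l hc.2]
  · rfl

/-- the index set of the equations -/
abbrev PP (E : I → Finset Q) (g : J → Q) (m : I → ℕ) : Type :=
  (x : (Σ a, Fin (m a))) × {k // k ∈ Lc E g x.1}

/-- the extension by zero -/
noncomputable def ybar (y : PP E g m → ZMod 2) (x : Σ a, Fin (m a)) (k : J) : ZMod 2 :=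
  if h : k ∈ Lc E g x.1 then y ⟨x, ⟨k, h⟩⟩ else 0

theorem sumP (y : PP E g m → ZMod 2) (F : (Σ a, Fin (m a)) → J → ZMod 2) :
    ∑ p : PP E g m, y p * F p.1 p.2.1 = ∑ x, ∑ k ∈ Lc E g x.1, ybar y x k * F x k := by
  rw [Fintype.sum_sigma]
  refine Finset.sum_congr rfl fun x _ => ?_
  rw [← Finset.sum_coe_sort (Lc E g x.1) (fun k => ybar y x k * F x k)]
  refine Finset.sum_congr rfl fun k _ => ?_
  unfold ybar
  rw [dif_pos k.2]

/-- the solutions of the transposed system, as functions on the index set -/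
noncomputable def yP (E : I → Finset Q) (g : J → Q) (d : (Σ a, Fin (m a)) → J → ZMod 2)
    (z : ((Σ a, prs (Fin (m a))) → ZMod 2) × ((Σ a, Fin (m a)) → ZMod 2))
    (p : PP E g m) : ZMod 2 := yC d z.1 z.2 p.1 p.2.1

theorem ybar_yP (z : ((Σ a, prs (Fin (m a))) → ZMod 2) × ((Σ a, Fin (m a)) → ZMod 2))
    (x : Σ a, Fin (m a)) (k : J) (hk : k ∈ Lc E g x.1) :
    ybar (yP E g d z) x k = yC d z.1 z.2 x k := by
  unfold ybar yP
  rw [dif_pos hk]

end struct

/-- QT-LA1 -/
theorem t_LA1C : S_LA1C := by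
  intro I Q J _ _ _ _ E g m tJ f d hE hd
  obtain ⟨R, hR⟩ : ∃ R : (prs J → ZMod 2) → (Σ a, Fin (m a)) → J → ZMod 2, R = fun α x k =>
    rwL (Lc E g x.1) tJ (f x) (d x) α k := ⟨_, rfl⟩
  have hR' : ∀ α x k, R α x k = rwL (Lc E g x.1) tJ (f x) (d x) α k := fun α x k => by rw [hR]
  obtain ⟨K, hKd⟩ : ∃ K : (PP E g m → ZMod 2) → ZMod 2, K = fun y =>
    ∑ p, y p * R 0 p.1 p.2.1 := ⟨_, rfl⟩
  -- the exponent
  have hexp : ∀ (y : PP E g m → ZMod 2) (α : prs J → ZMod 2),
      ∑ p, y p * R α p.1 p.2.1 = K y + ∑ e : prs J, α e * CC E g d (ybar y) e.1.1 e.1.2 := by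
    intro y α
    have h0 : ∀ p : PP E g m, y p * R α p.1 p.2.1 =
        y p * R 0 p.1 p.2.1 +
          y p * ∑ l ∈ Lc E g p.1.1, (aa α (l, p.2.1) + aa α (p.2.1, l)) *
            (d p.1 p.2.1 + d p.1 l) := by
      intro p
      rw [hR', rwL_aff, mul_add, ← hR']
    rw [sum_aa α (fun e => CC E g d (ybar y) e.1 e.2), hKd,
      Finset.sum_congr rfl fun p _ => h0 p, Finset.sum_add_distrib]
    congr 1
    rw [sumP y (fun x k => ∑ l ∈ Lc E g x.1, (aa α (l, k) + aa α (k, l)) * (d x k + d x l))]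
    have h1 : ∀ x : (Σ a, Fin (m a)), ∑ k ∈ Lc E g x.1, ybar y x k *
        ∑ l ∈ Lc E g x.1, (aa α (l, k) + aa α (k, l)) * (d x k + d x l) =
        ∑ e ∈ prs J, aa α e * (if e.1 ∈ Lc E g x.1 ∧ e.2 ∈ Lc E g x.1 then
          (ybar y x e.1 + ybar y x e.2) * (d x e.1 + d x e.2) else 0) := fun x =>
      aff_sum (Lc E g x.1) (d x) (ybar y x) α
    rw [Finset.sum_congr rfl fun x _ => h1 x, Finset.sum_comm]
    refine Finset.sum_congr rfl fun e _ => ?_
    unfold CC
    rw [Finset.mul_sum]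
  -- the values at the solutions of the transposed system
  have hKy : ∀ z : ((Σ a, prs (Fin (m a))) → ZMod 2) × ((Σ a, Fin (m a)) → ZMod 2),
      K (yP E g d z) = ∑ e : (Σ a, prs (Fin (m a))), z.1 e *
        c2C (Lc E g e.1) tJ (f ⟨e.1, e.2.1.1⟩) (d ⟨e.1, e.2.1.1⟩) (f ⟨e.1, e.2.1.2⟩)
          (d ⟨e.1, e.2.1.2⟩) + ∑ x, z.2 x * c1C (Lc E g x.1) tJ (f x) (d x) := by
    intro z
    rw [hKd]
    beta_reduce
    rw [sumP (yP E g d z) (fun x k => R 0 x k)]
    obtain ⟨T, hT⟩ : ∃ T : (Σ a, Fin (m a)) → (Σ a, Fin (m a)) → ZMod 2, T = fun x w =>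
      ∑ k ∈ Lc E g x.1, d w k * R 0 x k := ⟨_, rfl⟩
    have hT' : ∀ x w, T x w = ∑ k ∈ Lc E g x.1, d w k * R 0 x k := fun x w => by rw [hT]
    have h1 : ∀ x : (Σ a, Fin (m a)), ∑ k ∈ Lc E g x.1, ybar (yP E g d z) x k * R 0 x k =
        ∑ w, sm z.1 x w * T x w + z.2 x * c1C (Lc E g x.1) tJ (f x) (d x) := by
      intro x
      rw [← sum_rwL]
      simp only [← hR']
      have h2 : ∑ k ∈ Lc E g x.1, ybar (yP E g d z) x k * R 0 x k =
          ∑ k ∈ Lc E g x.1, (∑ w, sm z.1 x w * d w k + z.2 x) * R 0 x k := by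
        refine Finset.sum_congr rfl fun k hk => ?_
        rw [ybar_yP z x k hk]
        rfl
      rw [h2]
      simp only [hT', add_mul, Finset.sum_add_distrib, Finset.mul_sum, Finset.sum_mul]
      congr 1
      rw [Finset.sum_comm]
      refine Finset.sum_congr rfl fun j _ => Finset.sum_congr rfl fun k _ => ?_
      ring
    rw [Finset.sum_congr rfl fun x _ => h1 x, Finset.sum_add_distrib]
    congr 1
    have h3 : ∀ x : (Σ a, Fin (m a)), ∑ w, sm z.1 x w * T x w =
        ∑ j, gg (fun e => z.1 ⟨x.1, e⟩) x.2 j * T x ⟨x.1, j⟩ := fun x =>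
      sum_sm z.1 x (fun w => T x w)
    rw [Finset.sum_congr rfl fun x _ => h3 x, Fintype.sum_sigma, Fintype.sum_sigma]
    refine Finset.sum_congr rfl fun a _ => ?_
    rw [sum_pairs (fun i j : Fin (m a) => gg (fun e => z.1 ⟨a, e⟩) i j * T ⟨a, i⟩ ⟨a, j⟩)]
    simp only [gg_self, zero_mul, Finset.sum_const_zero, add_zero]
    have h4 : ∀ e ∈ prs (Fin (m a)), gg (fun e => z.1 ⟨a, e⟩) e.1 e.2 * T ⟨a, e.1⟩ ⟨a, e.2⟩ +
        gg (fun e => z.1 ⟨a, e⟩) e.2 e.1 * T ⟨a, e.2⟩ ⟨a, e.1⟩ =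
        aa (fun e => z.1 ⟨a, e⟩) e * c2C (Lc E g a) tJ (f ⟨a, e.1⟩) (d ⟨a, e.1⟩)
          (f ⟨a, e.2⟩) (d ⟨a, e.2⟩) := by
      intro e he
      rw [gg_symm _ e.2 e.1, ← mul_add]
      have h2 : gg (fun e => z.1 ⟨a, e⟩) e.1 e.2 = aa (fun e => z.1 ⟨a, e⟩) e := by
        have h3 := gg_pos (fun e => z.1 ⟨a, e⟩) ⟨e, he⟩
        have h4 := aa_pos (fun e => z.1 ⟨a, e⟩) ⟨e, he⟩
        rw [h4]
        exact h3
      rw [h2, ← pol_rwL]
      simp only [hT', hR']
    rw [Finset.sum_congr rfl h4, ← sum_aa (fun e => z.1 ⟨a, e⟩)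
      (fun e => c2C (Lc E g a) tJ (f ⟨a, e.1⟩) (d ⟨a, e.1⟩) (f ⟨a, e.2⟩) (d ⟨a, e.2⟩))]
  -- the counting
  have hcount : ((univ.filter fun α : prs J → ZMod 2 =>
      ∀ x, ∀ k ∈ Lc E g x.1, f x k + ∑ l ∈ Lc E g x.1, ext tJ α k l * (d x k + d x l) = 0).card
        : ℤ) * 2 ^ Fintype.card (PP E g m) =
      2 ^ Fintype.card (prs J) * ∑ y ∈ univ.filter (fun y : PP E g m → ZMod 2 =>
        ∀ e : prs J, CC E g d (ybar y) e.1.1 e.1.2 = 0), ch (K y) := by
    rw [Finset.card_filter]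
    push_cast
    rw [Finset.sum_mul, Finset.mul_sum]
    have h1 : ∀ α : prs J → ZMod 2,
        (if ∀ x, ∀ k ∈ Lc E g x.1, f x k + ∑ l ∈ Lc E g x.1, ext tJ α k l * (d x k + d x l) = 0
          then (1 : ℤ) else 0) *
          2 ^ Fintype.card (PP E g m) = ∑ y : PP E g m → ZMod 2,
            ch (∑ p, y p * R α p.1 p.2.1) := by
      intro α
      rw [sum_ch (fun p : PP E g m => R α p.1 p.2.1)]
      have h2 : (∀ x, ∀ k ∈ Lc E g x.1,
          f x k + ∑ l ∈ Lc E g x.1, ext tJ α k l * (d x k + d x l) = 0) ↔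
          ∀ p : PP E g m, R α p.1 p.2.1 = 0 :=
        ⟨fun h p => by rw [hR']; exact h p.1 p.2.1 p.2.2,
          fun h i k hk => by have := h ⟨i, ⟨k, hk⟩⟩; rw [hR'] at this; exact this⟩
      by_cases h3 : ∀ p : PP E g m, R α p.1 p.2.1 = 0
      · rw [if_pos h3, if_pos (h2.2 h3), one_mul]
      · rw [if_neg h3, if_neg (fun h => h3 (h2.1 h)), zero_mul]
    rw [Finset.sum_congr rfl fun α _ => h1 α, Finset.sum_comm]
    have h2 : ∀ y : PP E g m → ZMod 2, ∑ α : prs J → ZMod 2,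
        ch (∑ p, y p * R α p.1 p.2.1) =
        if ∀ e : prs J, CC E g d (ybar y) e.1.1 e.1.2 = 0 then
          2 ^ Fintype.card (prs J) * ch (K y) else 0 := by
      intro y
      simp only [hexp y, ch_add]
      rw [← Finset.mul_sum, sum_ch (fun e : prs J => CC E g d (ybar y) e.1.1 e.1.2)]
      split_ifs
      · ring
      · ring
    rw [Finset.sum_congr rfl fun y _ => h2 y, Finset.sum_filter]
  have hbij : ∑ y ∈ univ.filter (fun y : PP E g m → ZMod 2 =>
        ∀ e : prs J, CC E g d (ybar y) e.1.1 e.1.2 = 0), ch (K y) =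
      ∑ z : ((Σ a, prs (Fin (m a))) → ZMod 2) × ((Σ a, Fin (m a)) → ZMod 2),
        ch (K (yP E g d z)) := by
    symm
    refine Finset.sum_bij (fun z _ => yP E g d z) ?_ ?_ ?_ ?_
    · intro z _
      rw [Finset.mem_filter]
      refine ⟨Finset.mem_univ _, fun e => ?_⟩
      rw [CC_congr (fun x k hk => ybar_yP z x k hk)]
      exact CC_yC z.1 z.2 _ _
    · intro z _ z' _ h
      have h1 := yC_inj hE hd (s := z.1) (s' := z'.1) (κ := z.2) (κ' := z'.2) (by
        intro x k hk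
        exact congrFun h ⟨x, ⟨k, hk⟩⟩)
      exact Prod.ext h1.1 h1.2
    · intro y hy
      rw [Finset.mem_filter] at hy
      obtain ⟨s, κ, hx⟩ := yC_surj hE hd (ybar y) fun e he => hy.2 ⟨e, he⟩
      refine ⟨(s, κ), Finset.mem_univ _, ?_⟩
      funext p
      have h1 := hx p.1 p.2.1 p.2.2
      unfold yP
      rw [h1]
      unfold ybar
      rw [dif_pos p.2.2]
    · intro z _
      rfl
  have hval : ∑ z : ((Σ a, prs (Fin (m a))) → ZMod 2) × ((Σ a, Fin (m a)) → ZMod 2),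
        ch (K (yP E g d z)) =
      if (∀ x, c1C (Lc E g x.1) tJ (f x) (d x) = 0) ∧
        (∀ (a : I) (i j : Fin (m a)), i ≠ j →
          c2C (Lc E g a) tJ (f ⟨a, i⟩) (d ⟨a, i⟩) (f ⟨a, j⟩) (d ⟨a, j⟩) = 0)
        then 2 ^ (∑ a, (m a).choose 2 + ∑ a, m a) else 0 := by
    simp only [hKy, ch_add]
    rw [← Finset.univ_product_univ, Finset.sum_product]
    simp only [← Finset.mul_sum]
    rw [← Finset.sum_mul, sum_ch (fun x : (Σ a, Fin (m a)) => c1C (Lc E g x.1) tJ (f x) (d x)),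
      sum_ch (fun e : (Σ a, prs (Fin (m a))) =>
        c2C (Lc E g e.1) tJ (f ⟨e.1, e.2.1.1⟩) (d ⟨e.1, e.2.1.1⟩) (f ⟨e.1, e.2.1.2⟩)
          (d ⟨e.1, e.2.1.2⟩))]
    have hsymm : ∀ (a : I) (i j : Fin (m a)),
        c2C (Lc E g a) tJ (f ⟨a, i⟩) (d ⟨a, i⟩) (f ⟨a, j⟩) (d ⟨a, j⟩) =
        c2C (Lc E g a) tJ (f ⟨a, j⟩) (d ⟨a, j⟩) (f ⟨a, i⟩) (d ⟨a, i⟩) := by
      intro a i j
      rw [← pol_rwL, ← pol_rwL, add_comm]
    have h1 : ((∀ x, c1C (Lc E g x.1) tJ (f x) (d x) = 0) ∧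
        (∀ (a : I) (i j : Fin (m a)), i ≠ j →
          c2C (Lc E g a) tJ (f ⟨a, i⟩) (d ⟨a, i⟩) (f ⟨a, j⟩) (d ⟨a, j⟩) = 0)) ↔
        (∀ e : (Σ a, prs (Fin (m a))),
          c2C (Lc E g e.1) tJ (f ⟨e.1, e.2.1.1⟩) (d ⟨e.1, e.2.1.1⟩) (f ⟨e.1, e.2.1.2⟩)
          (d ⟨e.1, e.2.1.2⟩) = 0) ∧ ∀ x, c1C (Lc E g x.1) tJ (f x) (d x) = 0 := by
      constructor
      · rintro ⟨h2, h3⟩
        exact ⟨fun e => h3 _ _ _ (mem_prs.1 e.2.2).ne, h2⟩
      · rintro ⟨h2, h3⟩
        refine ⟨h3, fun a i j hij => ?_⟩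
        rcases lt_trichotomy i j with h | h | h
        · exact h2 ⟨a, ⟨(i, j), mem_prs.2 h⟩⟩
        · exact absurd h hij
        · rw [hsymm]
          exact h2 ⟨a, ⟨(j, i), mem_prs.2 h⟩⟩
    have h2 : Fintype.card (Σ a, prs (Fin (m a))) = ∑ a, (m a).choose 2 := by
      rw [Fintype.card_sigma]
      refine Finset.sum_congr rfl fun a _ => ?_
      rw [Fintype.card_coe, prs_card]
    have h2' : Fintype.card (Σ a, Fin (m a)) = ∑ a, m a := by
      rw [Fintype.card_sigma]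
      refine Finset.sum_congr rfl fun a _ => ?_
      rw [Fintype.card_fin]
    rw [h2, h2']
    by_cases h3 : ∀ e : (Σ a, prs (Fin (m a))),
          c2C (Lc E g e.1) tJ (f ⟨e.1, e.2.1.1⟩) (d ⟨e.1, e.2.1.1⟩) (f ⟨e.1, e.2.1.2⟩)
          (d ⟨e.1, e.2.1.2⟩) = 0
    · by_cases h4 : ∀ x, c1C (Lc E g x.1) tJ (f x) (d x) = 0
      · rw [if_pos h3, if_pos h4, if_pos (h1.2 ⟨h3, h4⟩), pow_add]
      · rw [if_pos h3, if_neg h4, if_neg (fun h => h4 (h1.1 h).2), mul_zero]
    · rw [if_neg h3, if_neg (fun h => h3 (h1.1 h).1), zero_mul]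
  rw [hbij, hval] at hcount
  -- the exponents
  have hcard : Fintype.card (PP E g m) = ∑ a, m a * ((Lc E g a).card - 1) + ∑ a, m a := by
    rw [Fintype.card_sigma, Fintype.sum_sigma, ← Finset.sum_add_distrib]
    refine Finset.sum_congr rfl fun a _ => ?_
    have h0 : ∀ i : Fin (m a), Fintype.card {k // k ∈ Lc E g a} = (Lc E g a).card := fun i =>
      Fintype.card_coe _
    have h00 : ∑ i : Fin (m a), Fintype.card {k // k ∈ Lc E g a} = m a * (Lc E g a).card := by
      rw [Finset.sum_congr rfl fun i _ => h0 i, Finset.sum_const, Finset.card_univ,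
        Fintype.card_fin, smul_eq_mul]
    refine h00.trans ?_
    rcases Nat.eq_zero_or_pos (m a) with h | h
    · rw [h]
      simp
    · obtain ⟨q, hq⟩ := hE.ne a
      obtain ⟨k, l, hk, -, -⟩ := hd q (Pi.single ⟨a, ⟨0, h⟩⟩ 1) (by
        intro w hw
        rw [Pi.single_eq_of_ne]
        rintro rfl
        exact hw hq) ⟨⟨a, ⟨0, h⟩⟩, by rw [Pi.single_eq_same]; decide⟩
      have h1 : 0 < (Lc E g a).card := Finset.card_pos.2 ⟨k, mem_Lc.2 (hk ▸ hq)⟩
      obtain ⟨n, hn⟩ := Nat.exists_eq_succ_of_ne_zero h1.ne'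
      rw [hn, Nat.succ_sub_one, Nat.mul_succ]
  rw [hcard, Fintype.card_coe, pow_add, ← mul_assoc] at hcount
  have h2m : (2 : ℤ) ^ (∑ a, m a) ≠ 0 := pow_ne_zero _ (by norm_num)
  by_cases hok : (∀ x, c1C (Lc E g x.1) tJ (f x) (d x) = 0) ∧
        (∀ (a : I) (i j : Fin (m a)), i ≠ j →
          c2C (Lc E g a) tJ (f ⟨a, i⟩) (d ⟨a, i⟩) (f ⟨a, j⟩) (d ⟨a, j⟩) = 0)
  · rw [if_pos hok] at hcount ⊢
    have h1 : (((univ.filter fun α : prs J → ZMod 2 =>
        ∀ x, ∀ k ∈ Lc E g x.1,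
          f x k + ∑ l ∈ Lc E g x.1, ext tJ α k l * (d x k + d x l) = 0).card : ℤ) *
        2 ^ (∑ a, m a * ((Lc E g a).card - 1))) * 2 ^ (∑ a, m a) =
        2 ^ ((prs J).card + ∑ a, (m a).choose 2) * 2 ^ (∑ a, m a) := by
      rw [hcount, ← pow_add, ← pow_add, ← add_assoc]
    have h2 := mul_right_cancel₀ h2m h1
    exact_mod_cast h2
  · rw [if_neg hok] at hcount ⊢
    rw [mul_zero] at hcount
    have h2 := (mul_eq_zero.1 hcount).resolve_right h2m
    exact_mod_cast h2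

end Pool.Agent.N869.QT.L.LA1C
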