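import Pool.Agent.N869.QT.L.LA3C1

/-!
# QT-LA3C: degenerate tuples are rare
-/

set_option autoImplicit false
set_option linter.unusedVariables false
set_option linter.unusedSectionVars false
set_option linter.unusedSimpArgs false

open scoped Classical

namespace Pool.Agent.N869.QT.L.LA3C

open Finset Pool.Agent.N869.QT.L Pool.Agent.N869.QT.L.LA0

section wit

variable {X Q J : Type} [Fintype X] [Fintype Q] [Fintype J] [LinearOrder J]
variable (e : X → Finset Q) (g : J → Q) (T : Finset J) (D : J → X → ZMod 2)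

/-- every affine relation of the columns of colour `q` in `T` holds for all columns of colour `q` -/
def Wit : Prop := ∀ (q : Q) (w : X → ZMod 2) (ε : ZMod 2),
  (∀ l ∈ T, g l = q → ∑ x, w x * D l x = ε) → ∀ l, g l = q → ∑ x, w x * D l x = ε

lemma exists_wit1 (q : Q) : ∃ T : Finset J, T.card ≤ Fintype.card X + 1 ∧ (∀ l ∈ T, g l = q) ∧
    ∀ (w : X → ZMod 2) (ε : ZMod 2),
      (∀ l ∈ T, ∑ x, w x * D l x = ε) → ∀ l, g l = q → ∑ x, w x * D l x = ε := by
  set S : Set (ZMod 2 × (X → ZMod 2)) := {v | ∃ l, g l = q ∧ v = (1, D l)} with hS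
  obtain ⟨b, hbS, hspan, hli⟩ := exists_linearIndependent (ZMod 2) S
  have hfin : Finite b := inferInstance
  have : Fintype b := Fintype.ofFinite b
  have hcard : Fintype.card b ≤ Fintype.card X + 1 := by
    have h := hli.fintype_card_le_finrank
    rw [Module.finrank_prod, Module.finrank_self, Module.finrank_fintype_fun_eq_card,
      add_comm] at h
    exact (le_of_eq (Fintype.card_congr (Equiv.refl _))).trans h
  have hch : ∀ v : b, ∃ l, g l = q ∧ v.1 = (1, D l) := fun v => hbS v.2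
  choose c hc1 hc2 using hch
  refine ⟨univ.image c, (Finset.card_image_le).trans hcard, ?_, ?_⟩
  · intro l hl
    rw [Finset.mem_image] at hl
    obtain ⟨v, _, rfl⟩ := hl
    exact hc1 v
  intro w ε h l hl
  let φ : (ZMod 2 × (X → ZMod 2)) →ₗ[ZMod 2] ZMod 2 :=
    { toFun := fun p => ∑ x, w x * p.2 x + ε * p.1
      map_add' := fun p p' => by
        simp only [Prod.snd_add, Prod.fst_add, Pi.add_apply, mul_add, Finset.sum_add_distrib]
        ring
      map_smul' := fun a p => by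
        simp only [Prod.smul_snd, Prod.smul_fst, Pi.smul_apply, smul_eq_mul, RingHom.id_apply,
          mul_add, Finset.mul_sum]
        congr 1
        · exact Finset.sum_congr rfl fun x _ => by ring
        · ring }
  have hφ : ∀ v : b, φ v.1 = 0 := by
    intro v
    have h1 := h (c v) (Finset.mem_image_of_mem c (Finset.mem_univ v))
    change ∑ x, w x * v.1.2 x + ε * v.1.1 = 0
    rw [hc2 v]
    simp only [mul_one]
    rw [h1, add_self0]
  have hle : Submodule.span (ZMod 2) b ≤ LinearMap.ker φ := by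
    rw [Submodule.span_le]
    intro v hv
    exact hφ ⟨v, hv⟩
  have hmem : ((1 : ZMod 2), D l) ∈ Submodule.span (ZMod 2) b := by
    rw [hspan]
    exact Submodule.subset_span ⟨l, hl, rfl⟩
  have h2 : ∑ x, w x * D l x + ε * 1 = 0 := hle hmem
  rw [mul_one] at h2
  exact add_eq0.1 h2

lemma exists_wit : ∃ T : Finset J, T.card ≤ Fintype.card Q * (Fintype.card X + 1) ∧ Wit g T D := by
  choose T hT1 hT3 hT2 using exists_wit1 g D
  refine ⟨univ.biUnion T, ?_, ?_⟩
  · refine Finset.card_biUnion_le.trans ?_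
    refine (Finset.sum_le_sum fun q _ => hT1 q).trans ?_
    rw [Finset.sum_const, Finset.card_univ, smul_eq_mul]
  · intro q w ε h l hl
    refine hT2 q w ε ?_ l hl
    intro l' hl'
    exact h l' (Finset.mem_biUnion.2 ⟨q, Finset.mem_univ _, hl'⟩) (hT3 q l' hl')

/-- **Lemma B.** -/
lemma lemB (hD : ∀ k x, g k ∉ e x → D k x = 0) (hwit : Wit g T D)
    (hne : ∀ q, ∃ l ∈ T, g l = q)
    (hdeg : ∃ (q : Q) (w : X → ZMod 2), (∀ x, q ∉ e x → w x = 0) ∧ (∃ x, w x ≠ 0) ∧
      ∀ k l, g k = q → g l = q → ∑ x, w x * (D k x + D l x) = 0)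
    (hind : ∀ (x0 : X) (w : X → ZMod 2), (∀ x, e x ≠ e x0 → w x = 0) → w x0 ≠ 0 →
      ¬ ∀ k l, g k ∈ e x0 → g l ∈ e x0 → ∑ x, w x * (D k x + D l x) = 0) :
    ∃ q, ∃ γ ∈ VV g T D q, (RR e g T D q γ).card < (AA g T D q).card := by
  by_contra hcon
  push Not at hcon
  have hR : ∀ (q : Q) (γ : X → ZMod 2), γ ∈ VV g T D q → ∀ p ∈ AA g T D q,
      p.1 ∈ RR e g T D q γ := fun q γ hγ p hp => RR_eq e g T D hD hγ (hcon q γ hγ) hp
  -- step 1
  have step1 : ∀ (q q' : Q) (p : (X → ZMod 2) × ZMod 2), p ∈ AA g T D q → ∃ ε' : ZMod 2,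
      ((fun x => if q ∈ e x ∧ q' ∈ e x then p.1 x else 0 : X → ZMod 2), ε') ∈ AA g T D q ∧
      ((fun x => if q ∈ e x ∧ q' ∈ e x then p.1 x else 0 : X → ZMod 2), ε') ∈ AA g T D q' := by
    intro q q' p hp
    obtain ⟨l0, hl0, hq0⟩ := hne q
    obtain ⟨l1, hl1, hq1⟩ := hne q'
    have key : ∀ l ∈ T, g l = q → ∀ l' ∈ T, g l' = q' →
        ∑ x, (if q ∈ e x ∧ q' ∈ e x then p.1 x else 0) * D l x =
        ∑ x, (if q ∈ e x ∧ q' ∈ e x then p.1 x else 0) * D l' x := by
      intro l hl hlq l' hl' hlq'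
      have h := (mem_RR e g T D).1 (hR q (D l) (VV_mem_of g T D hl hlq) p hp) l' hl'
      refine add_eq0.1 (Eq.trans ?_ h)
      rw [← Finset.sum_add_distrib]
      refine Finset.sum_congr rfl fun x _ => ?_
      rw [hlq']
      by_cases hx : q ∈ e x ∧ q' ∈ e x
      · rw [if_pos hx, if_pos hx]; ring
      · rw [if_neg hx, if_neg hx]; ring
    refine ⟨∑ x, (if q ∈ e x ∧ q' ∈ e x then p.1 x else 0) * D l0 x, ?_, ?_⟩
    · rw [mem_AA]
      intro l hl hlq
      rw [key l hl hlq l1 hl1 hq1, key l0 hl0 hq0 l1 hl1 hq1]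
    · rw [mem_AA]
      intro l hl hlq
      exact (key l0 hl0 hq0 l hl hlq).symm
  -- step 2: restriction to the rows `x` with `q' ∈ e x ↔ q' ∈ e x0` for `q' ∈ F`
  have stepq : ∀ (q q' : Q) (p : (X → ZMod 2) × ZMod 2), p ∈ AA g T D q → ∃ ε' : ZMod 2,
      ((fun x => if q' ∈ e x then p.1 x else 0 : X → ZMod 2), ε') ∈ AA g T D q := by
    intro q q' p hp
    obtain ⟨ε', h1, -⟩ := step1 q q' p hp
    refine ⟨ε', ?_⟩
    rw [mem_AA] at h1 ⊢
    intro l hl hlq
    rw [← h1 l hl hlq]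
    refine Finset.sum_congr rfl fun x _ => ?_
    simp only
    by_cases hx : q ∈ e x
    · simp only [hx, true_and]
    · rw [hD l x (by rw [hlq]; exact hx), mul_zero, mul_zero]
  have stepc : ∀ (q q' : Q) (p : (X → ZMod 2) × ZMod 2), p ∈ AA g T D q → ∃ ε' : ZMod 2,
      ((fun x => if q' ∈ e x then 0 else p.1 x : X → ZMod 2), ε') ∈ AA g T D q := by
    intro q q' p hp
    obtain ⟨ε', h1⟩ := stepq q q' p hp
    refine ⟨p.2 + ε', ?_⟩
    have h2 := AA_add g T D hp h1
    have h3 : p + ((fun x => if q' ∈ e x then p.1 x else 0 : X → ZMod 2), ε') =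
        ((fun x => if q' ∈ e x then 0 else p.1 x : X → ZMod 2), p.2 + ε') := by
      refine Prod.ext (funext fun x => ?_) rfl
      change p.1 x + (if q' ∈ e x then p.1 x else 0) = if q' ∈ e x then 0 else p.1 x
      by_cases hx : q' ∈ e x
      · rw [if_pos hx, if_pos hx, add_self0]
      · rw [if_neg hx, if_neg hx, add_zero]
    rw [h3] at h2
    exact h2
  have stepF : ∀ (x0 : X) (F : Finset Q) (q : Q) (p : (X → ZMod 2) × ZMod 2), p ∈ AA g T D q →
      ∃ ε' : ZMod 2, ((fun x => if ∀ q' ∈ F, (q' ∈ e x ↔ q' ∈ e x0) then p.1 x else 0 :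
        X → ZMod 2), ε') ∈ AA g T D q := by
    intro x0 F
    induction F using Finset.induction_on with
    | empty =>
      intro q p hp
      exact ⟨p.2, by simpa using hp⟩
    | insert a F ha ih =>
      intro q p hp
      obtain ⟨ε1, h1⟩ := ih q p hp
      by_cases hx0 : a ∈ e x0
      · obtain ⟨ε2, h2⟩ := stepq q a _ h1
        refine ⟨ε2, ?_⟩
        convert h2 using 3 with x
        simp only [Finset.mem_insert, forall_eq_or_imp, hx0, iff_true]
        by_cases hax : a ∈ e x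
        · simp [hax]
        · simp [hax]
      · obtain ⟨ε2, h2⟩ := stepc q a _ h1
        refine ⟨ε2, ?_⟩
        convert h2 using 3 with x
        simp only [Finset.mem_insert, forall_eq_or_imp, hx0, iff_false]
        by_cases hax : a ∈ e x
        · simp [hax]
        · simp [hax]
  -- step 3
  obtain ⟨q, w, hsup, ⟨x0, hx0⟩, hcst⟩ := hdeg
  obtain ⟨l0, hl0, hq0⟩ := hne q
  have hw : (w, ∑ x, w x * D l0 x) ∈ AA g T D q := by
    rw [mem_AA]
    intro l hl hlq
    have := hcst l l0 hlq hq0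
    simp only [mul_add, Finset.sum_add_distrib] at this
    exact add_eq0.1 this
  obtain ⟨ε1, h1⟩ := stepF x0 univ q _ hw
  set w1 : X → ZMod 2 := fun x => if ∀ q' ∈ univ, (q' ∈ e x ↔ q' ∈ e x0) then w x else 0 with hw1
  have hw1x0 : w1 x0 ≠ 0 := by
    have h : w1 x0 = w x0 := if_pos (fun q' _ => Iff.rfl)
    rw [h]
    exact hx0
  have hw1s : ∀ x, e x ≠ e x0 → w1 x = 0 := by
    intro x hx
    exact if_neg fun h => hx (Finset.ext fun q' => h q' (Finset.mem_univ _))
  have hqx0 : q ∈ e x0 := by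
    by_contra h
    exact hx0 (hsup x0 h)
  have hall : ∀ q' ∈ e x0, (w1, ε1) ∈ AA g T D q' := by
    intro q' hq'
    obtain ⟨ε', h2, h3⟩ := step1 q q' _ h1
    have h4 : (fun x => if q ∈ e x ∧ q' ∈ e x then w1 x else 0 : X → ZMod 2) = w1 := by
      funext x
      by_cases hx : e x = e x0
      · rw [if_pos (by rw [hx]; exact ⟨hqx0, hq'⟩)]
      · rw [hw1s x hx, ite_self]
    rw [h4] at h2 h3
    have h5 := (mem_AA g T D).1 h1 l0 hl0 hq0
    have h6 := (mem_AA g T D).1 h2 l0 hl0 hq0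
    have h7 : ε1 = ε' := h5.symm.trans h6
    rw [h7]
    exact h3
  refine hind x0 w1 hw1s hw1x0 ?_
  intro k l hk hl
  have hk1 := hwit (g k) w1 ε1 (fun l' hl' hg => (mem_AA g T D).1 (hall _ hk) l' hl' hg) k rfl
  have hl1 := hwit (g l) w1 ε1 (fun l' hl' hg => (mem_AA g T D).1 (hall _ hl) l' hl' hg) l rfl
  simp only [mul_add, Finset.sum_add_distrib]
  rw [hk1, hl1, add_self0]

/-- the sum over the tuples of columns with given columns in `T` -/
lemma sum_cols (hD : ∀ k x, g k ∉ e x → D k x = 0) (q0 : Q)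
    (hq0 : ∃ γ ∈ VV g T D q0, (RR e g T D q0 γ).card < (AA g T D q0).card) :
    ∑ D' ∈ Fintype.piFinset (fun k : J =>
        if k ∈ T then ({D k} : Finset (X → ZMod 2)) else VV g T D (g k)),
      ∏ k ∈ Tᶜ, (((RR e g T D' (g k) (D' k)).card : ℝ) / 2 ^ Fintype.card X) ≤
      (1 - 1 / 2 ^ (Fintype.card X + 1)) ^
        ((univ.filter fun k => g k = q0).card - T.card) := by
  set M := Fintype.card X with hM
  have h1 : ∀ D' ∈ Fintype.piFinset (fun k : J =>
        if k ∈ T then ({D k} : Finset (X → ZMod 2)) else VV g T D (g k)),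
      ∏ k ∈ Tᶜ, (((RR e g T D' (g k) (D' k)).card : ℝ) / 2 ^ M) =
      ∏ k, (if k ∈ T then 1 else ((RR e g T D (g k) (D' k)).card : ℝ) / 2 ^ M) := by
    intro D' hD'
    rw [Fintype.mem_piFinset] at hD'
    have h2 : ∀ l ∈ T, D' l = D l := by
      intro l hl
      have := hD' l
      rwa [if_pos hl, Finset.mem_singleton] at this
    rw [← Finset.prod_mul_prod_compl T]
    have h3 : ∏ k ∈ T, (if k ∈ T then 1 else ((RR e g T D (g k) (D' k)).card : ℝ) / 2 ^ M) = 1 :=
      Finset.prod_eq_one fun k hk => if_pos hk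
    rw [h3, one_mul]
    refine Finset.prod_congr rfl fun k hk => ?_
    rw [if_neg (Finset.mem_compl.1 hk), RR_congr e g T D h2]
  rw [Finset.sum_congr rfl h1]
  have h2 := (Finset.prod_univ_sum (t := fun k : J =>
        if k ∈ T then ({D k} : Finset (X → ZMod 2)) else VV g T D (g k))
      (f := fun k γ => if k ∈ T then (1 : ℝ) else ((RR e g T D (g k) γ).card : ℝ) / 2 ^ M)).symm
  rw [h2]
  have hpow : (0 : ℝ) < 2 ^ M := by positivity
  have hθ : (0 : ℝ) ≤ 1 - 1 / 2 ^ (M + 1) := by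
    have : (1 : ℝ) / 2 ^ (M + 1) ≤ 1 := by
      rw [div_le_one (by positivity)]
      exact one_le_pow₀ (by norm_num)
    linarith
  have hθ1 : (1 : ℝ) - 1 / 2 ^ (M + 1) ≤ 1 := by
    have : (0 : ℝ) < 1 / 2 ^ (M + 1) := by positivity
    linarith
  have h3 : ∀ k : J, ∑ γ ∈ (if k ∈ T then ({D k} : Finset (X → ZMod 2)) else VV g T D (g k)),
      (if k ∈ T then (1 : ℝ) else ((RR e g T D (g k) γ).card : ℝ) / 2 ^ M) ≤
      if k ∉ T ∧ g k = q0 then 1 - 1 / 2 ^ (M + 1) else 1 := by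
    intro k
    by_cases hk : k ∈ T
    · simp only [hk, if_true, Finset.sum_singleton, not_true, false_and, if_false]
      exact le_refl _
    · simp only [hk, if_false, not_false_eq_true, true_and]
      rw [← Finset.sum_div]
      by_cases hg : g k = q0
      · rw [if_pos hg, hg]
        have h4 := S_lt e g T D hD q0 hq0
        have h5 : (∑ γ ∈ VV g T D q0, ((RR e g T D q0 γ).card : ℝ)) + 1 ≤ 2 ^ M := by
          exact_mod_cast h4
        rw [div_le_iff₀ hpow, pow_succ]
        have h6 : (1 - 1 / (2 ^ M * 2 : ℝ)) * 2 ^ M = 2 ^ M - 1 / 2 := by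
          field_simp
        rw [h6]
        linarith
      · rw [if_neg hg]
        have h4 := S_le e g T D hD (g k)
        have h5 : (∑ γ ∈ VV g T D (g k), ((RR e g T D (g k) γ).card : ℝ)) ≤ 2 ^ M := by
          exact_mod_cast h4
        rw [div_le_one hpow]
        exact h5
  have h3' : ∀ k : J, 0 ≤ ∑ γ ∈ (if k ∈ T then ({D k} : Finset (X → ZMod 2)) else VV g T D (g k)),
      (if k ∈ T then (1 : ℝ) else ((RR e g T D (g k) γ).card : ℝ) / 2 ^ M) := by
    intro k
    refine Finset.sum_nonneg fun γ _ => ?_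
    split_ifs
    · norm_num
    · positivity
  refine (Finset.prod_le_prod (fun k _ => h3' k) fun k _ => h3 k).trans ?_
  rw [Finset.prod_ite, Finset.prod_const, Finset.prod_const_one, mul_one]
  refine pow_le_pow_of_le_one hθ hθ1 ?_
  have h7 : (univ.filter fun k => g k = q0) ⊆ (univ.filter fun k => k ∉ T ∧ g k = q0) ∪ T := by
    intro k hk
    rw [Finset.mem_filter] at hk
    rw [Finset.mem_union, Finset.mem_filter]
    by_cases hkT : k ∈ T
    · exact Or.inr hkT
    · exact Or.inl ⟨Finset.mem_univ _, hkT, hk.2⟩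
  have h8 := (Finset.card_le_card h7).trans (Finset.card_union_le _ _)
  omega

end wit

/-- the numerical estimate -/
lemma numeric (M t0 : ℕ) (δ : ℝ) (hδ : 0 < δ) : ∃ K' : ℕ, ∀ n0 u l j : ℕ, n0 = u + l + 1 →
    j + 1 ≤ 2 ^ (l + 1) → ∀ A : ℕ, K' * n0 ≤ A →
    ((j + 1 : ℝ)) ^ t0 * ((2 ^ u) ^ M * (2 ^ M) ^ t0) * (1 - 1 / 2 ^ (M + 1) : ℝ) ^ A ≤ δ := by
  set θ : ℝ := 1 - 1 / 2 ^ (M + 1) with hθd
  have hθ0 : 0 ≤ θ := by
    have : (1 : ℝ) / 2 ^ (M + 1) ≤ 1 := by
      rw [div_le_one (by positivity)]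
      exact one_le_pow₀ (by norm_num)
    linarith
  have hθ1 : θ < 1 := by
    have : (0 : ℝ) < 1 / 2 ^ (M + 1) := by positivity
    linarith
  have hε : 0 < min δ 1 / 2 ^ (t0 + M + M * t0) := by
    have : 0 < min δ 1 := lt_min hδ one_pos
    positivity
  obtain ⟨K', hK'⟩ := exists_pow_lt_of_lt_one hε hθ1
  refine ⟨K', ?_⟩
  intro n0 u l j hn0 hj A hA
  have h1 : θ ^ A ≤ (θ ^ K') ^ n0 := by
    rw [← pow_mul]
    exact pow_le_pow_of_le_one hθ0 hθ1.le hA
  have h2 : ((j + 1 : ℝ)) ^ t0 ≤ 2 ^ (t0 * n0) := by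
    have h3 : ((j + 1 : ℝ)) ≤ 2 ^ (l + 1) := by exact_mod_cast hj
    have h4 : (2 : ℝ) ^ (l + 1) ≤ 2 ^ n0 := pow_le_pow_right₀ (by norm_num) (by omega)
    calc ((j + 1 : ℝ)) ^ t0 ≤ (2 ^ n0) ^ t0 := pow_le_pow_left₀ (by positivity) (h3.trans h4) _
      _ = 2 ^ (t0 * n0) := by rw [← pow_mul, mul_comm]
  have h5 : ((2 : ℝ) ^ u) ^ M * (2 ^ M) ^ t0 ≤ 2 ^ ((M + M * t0) * n0) := by
    rw [← pow_mul, ← pow_mul, ← pow_add]
    refine pow_le_pow_right₀ (by norm_num) ?_
    have h6 : 1 ≤ n0 := by omega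
    have h7 : u * M ≤ M * n0 := by
      rw [mul_comm]; exact Nat.mul_le_mul_left _ (by omega)
    have h8 : M * t0 ≤ M * t0 * n0 := Nat.le_mul_of_pos_right _ h6
    calc u * M + M * t0 ≤ M * n0 + M * t0 * n0 := Nat.add_le_add h7 h8
      _ = _ := by ring
  calc ((j + 1 : ℝ)) ^ t0 * ((2 ^ u) ^ M * (2 ^ M) ^ t0) * θ ^ A
      ≤ 2 ^ (t0 * n0) * 2 ^ ((M + M * t0) * n0) * (θ ^ K') ^ n0 := by
        have h9 := mul_le_mul h2 h5 (by positivity) (by positivity)
        exact mul_le_mul h9 h1 (by positivity) (by positivity)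
    _ = (2 ^ (t0 + M + M * t0) * θ ^ K') ^ n0 := by
        rw [mul_pow]
        congr 1
        rw [← pow_add, ← pow_mul]
        congr 1
        ring
    _ ≤ (min δ 1) ^ n0 := by
        refine pow_le_pow_left₀ (by positivity) ?_ _
        rw [lt_div_iff₀ (by positivity)] at hK'
        rw [mul_comm]; exact hK'.le
    _ ≤ (min δ 1) ^ 1 := by
        refine pow_le_pow_of_le_one ?_ (min_le_right _ _) (by omega)
        exact (lt_min hδ one_pos).le
    _ ≤ δ := by rw [pow_one]; exact min_le_left _ _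

/-- enumeration of a small finite set -/
lemma exists_enum {J : Type} [Fintype J] (T : Finset J) (t0 : ℕ) (h : T.card ≤ t0) :
    ∃ f : Fin t0 → Option J, (univ.filter fun k => ∃ i, f i = some k) = T := by
  refine ⟨fun i => if hi : i.1 < T.card then some (T.equivFin.symm ⟨i.1, hi⟩ : J) else none, ?_⟩
  ext k
  rw [Finset.mem_filter]
  simp only [Finset.mem_univ, true_and]
  constructor
  · rintro ⟨i, hi⟩
    split_ifs at hi with h1
    have h2 := Option.some.inj hi
    rw [← h2]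
    exact (T.equivFin.symm ⟨i.1, h1⟩).2
  · intro hk
    refine ⟨⟨(T.equivFin ⟨k, hk⟩).1, lt_of_lt_of_le (T.equivFin ⟨k, hk⟩).2 h⟩, ?_⟩
    rw [dif_pos (T.equivFin ⟨k, hk⟩).2]
    simp

theorem t_LA3C : S_LA3C := by
  intro I Q _ _ E hE m δ hδ
  set M := Fintype.card (Σ a, Fin (m a)) with hM
  set t0 := Fintype.card Q * (M + 1) with ht0
  obtain ⟨K', hK'⟩ := numeric M t0 δ hδ
  refine ⟨K' + t0 + 1, ?_⟩
  intro U J _ _ _ W g tU sJ tJ B hmany
  set e : (Σ a, Fin (m a)) → Finset Q := fun x => E x.1 with he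
  set n0 := Fintype.card U + Nat.log 2 (Fintype.card J) + 1 with hn0
  set Bad := univ.filter fun y : (prs J → ZMod 2) ×
        ((Σ a, Fin (m a)) → (U → ZMod 2) × (J → ZMod 2)) =>
      (∀ a, IndC (Lc E g a) (fun i : Fin (m a) => (y.2 ⟨a, i⟩).2)) ∧
      ¬ StrC E g (fun p => (y.2 p).2) ∧
      (∀ p, (∀ u, u ∉ W p.1 → (y.2 p).1 u = 0) ∧ (∀ k, k ∉ Lc E g p.1 → (y.2 p).2 k = 0)) ∧
      ∀ p, KrC (W p.1) (Lc E g p.1) tU sJ tJ B (ext tJ y.1) (y.2 p) with hBad
  let col : ((Σ a, Fin (m a)) → (U → ZMod 2) × (J → ZMod 2)) → J → (Σ a, Fin (m a)) → ZMod 2 :=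
    fun z k x => (z x).2 k
  let Th : (Fin t0 → Option J) → Finset J := fun h => univ.filter fun k => ∃ i, h i = some k
  have hTh : ∀ h, (Th h).card ≤ t0 := by
    intro h
    have : Th h ⊆ (univ : Finset (Fin t0)).biUnion fun i => (h i).toFinset := by
      intro k hk
      simp only [Th, Finset.mem_filter, Finset.mem_univ, true_and] at hk
      obtain ⟨i, hi⟩ := hk
      rw [Finset.mem_biUnion]
      exact ⟨i, Finset.mem_univ _, by rw [Option.mem_toFinset, hi]; rfl⟩
    refine (Finset.card_le_card this).trans (Finset.card_biUnion_le.trans ?_)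
    refine (Finset.sum_le_sum (g := fun _ => 1) fun i _ => ?_).trans (by simp)
    rcases h i with _ | k
    · simp
    · simp
  let Cell : (Fin t0 → Option J) × ((Σ a, Fin (m a)) → U → ZMod 2) ×
      (Fin t0 → (Σ a, Fin (m a)) → ZMod 2) → Finset ((prs J → ZMod 2) ×
        ((Σ a, Fin (m a)) → (U → ZMod 2) × (J → ZMod 2))) := fun s =>
    Bad.filter fun y => (∀ x, (y.2 x).1 = s.2.1 x) ∧
      (∀ i k, s.1 i = some k → col y.2 k = s.2.2 i) ∧ Wit g (Th s.1) (col y.2)
  have hcover : Bad ⊆ univ.biUnion Cell := by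
    intro y hy
    obtain ⟨T, hT, hwit⟩ := exists_wit g (col y.2)
    obtain ⟨h, hh⟩ := exists_enum T t0 (by rw [ht0, hM]; exact hT)
    rw [Finset.mem_biUnion]
    refine ⟨(h, fun x => (y.2 x).1, fun i => match h i with
      | some k => col y.2 k
      | none => 0), Finset.mem_univ _, ?_⟩
    rw [Finset.mem_filter]
    refine ⟨hy, fun x => rfl, ?_, ?_⟩
    · intro i k hik
      simp only at hik ⊢
      rw [hik]
    · have : Th h = T := by
        rw [← hh]
        ext k
        simp [Th]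
      simp only
      rw [this]
      exact hwit
  have hcell : ∀ s, ((Cell s).card : ℝ) ≤ 2 ^ (prs J).card *
      (1 - 1 / 2 ^ (M + 1) : ℝ) ^ ((K' + t0 + 1) * n0 - t0) := by
    rintro ⟨h, c, σ⟩
    have hθ0 : (0 : ℝ) ≤ 1 - 1 / 2 ^ (M + 1) := by
      have : (1 : ℝ) / 2 ^ (M + 1) ≤ 1 := by
        rw [div_le_one (by positivity)]
        exact one_le_pow₀ (by norm_num)
      linarith
    have hθ1 : (1 : ℝ) - 1 / 2 ^ (M + 1) ≤ 1 := by
      have : (0 : ℝ) < 1 / 2 ^ (M + 1) := by positivity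
      linarith
    rcases (Cell (h, c, σ)).eq_empty_or_nonempty with hemp | ⟨y0, hy0⟩
    · rw [hemp]
      simp only [Finset.card_empty, Nat.cast_zero]
      positivity
    set T := Th h with hTdef
    set D0 := col y0.2 with hD0
    have hy0' := hy0
    rw [Finset.mem_filter, hBad, Finset.mem_filter] at hy0'
    obtain ⟨⟨-, hind0, hstr0, hsup0, hker0⟩, hc0, hσ0, hwit0⟩ := hy0'
    -- supports of a bad tuple
    have hsupp : ∀ y ∈ Bad, ∀ k x, g k ∉ e x → col y.2 k x = 0 := by
      intro y hy k x hkx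
      rw [hBad, Finset.mem_filter] at hy
      refine (hy.2.2.2.1 x).2 k ?_
      simp only [Lc, Finset.mem_filter, Finset.mem_univ, true_and]
      exact hkx
    have hD := hsupp y0 (Finset.mem_filter.1 hy0).1
    -- every colour occurs
    have hJq : ∀ q : Q, ∃ k, g k = q := by
      intro q
      have h1 := hmany q
      have h2 : 0 < (univ.filter fun k => g k = q).card := by
        refine lt_of_lt_of_le ?_ h1
        positivity
      obtain ⟨k, hk⟩ := Finset.card_pos.1 h2
      exact ⟨k, (Finset.mem_filter.1 hk).2⟩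
    have hne : ∀ q : Q, ∃ l ∈ T, g l = q := by
      intro q
      by_contra hcon
      push Not at hcon
      obtain ⟨k, hk⟩ := hJq q
      have := hwit0 q 0 1 (fun l hl hlq => absurd hlq (hcon l hl)) k hk
      simp at this
    -- degeneracy
    have hdeg : ∃ (q : Q) (w : (Σ a, Fin (m a)) → ZMod 2), (∀ x, q ∉ e x → w x = 0) ∧
        (∃ x, w x ≠ 0) ∧ ∀ k l, g k = q → g l = q → ∑ x, w x * (D0 k x + D0 l x) = 0 := by
      unfold StrC at hstr0
      push Not at hstr0
      obtain ⟨q, w, h1, h2, h3⟩ := hstr0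
      exact ⟨q, w, h1, h2, h3⟩
    have hind : ∀ (x0 : Σ a, Fin (m a)) (w : (Σ a, Fin (m a)) → ZMod 2),
        (∀ x, e x ≠ e x0 → w x = 0) → w x0 ≠ 0 →
        ¬ ∀ k l, g k ∈ e x0 → g l ∈ e x0 → ∑ x, w x * (D0 k x + D0 l x) = 0 := by
      rintro ⟨a, i0⟩ w hw hw0 hcon
      obtain ⟨k, hk, l, hl, hne'⟩ := hind0 a (fun i => w ⟨a, i⟩) ⟨i0, hw0⟩
      refine hne' ?_
      simp only [Lc, Finset.mem_filter, Finset.mem_univ, true_and] at hk hl
      rw [← hcon k l hk hl, Fintype.sum_sigma, Finset.sum_eq_single a]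
      · intro b _ hb
        refine Finset.sum_eq_zero fun i _ => ?_
        rw [hw ⟨b, i⟩ (fun h => hb (hE.inj h)), zero_mul]
      · intro h
        exact absurd (Finset.mem_univ _) h
    obtain ⟨q0, hq0⟩ := lemB e g T D0 hD hwit0 hne hdeg hind
    -- the number of the elements of the cell
    set f : (J → (Σ a, Fin (m a)) → ZMod 2) → (Σ a, Fin (m a)) → J → ZMod 2 := fun D' x k =>
      fJ (W x.1) tU sJ tJ B (c x, fun k => D' k x) k with hf
    set Ns : (J → (Σ a, Fin (m a)) → ZMod 2) → Finset (prs J → ZMod 2) := fun D' =>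
      univ.filter fun α : prs J → ZMod 2 => ∀ x, ∀ k, g k ∈ e x →
        f D' x k + ∑ l ∈ univ.filter (fun l => g l ∈ e x), ext tJ α k l * (D' k x + D' l x) = 0
      with hNs
    set Pi := Fintype.piFinset (fun k : J =>
        if k ∈ T then ({D0 k} : Finset ((Σ a, Fin (m a)) → ZMod 2)) else VV g T D0 (g k)) with hPi
    have h1 : (Cell (h, c, σ)).card ≤ (Pi.sigma Ns).card := by
      refine Finset.card_le_card_of_injOn (fun y => ⟨col y.2, y.1⟩) ?_ ?_
      · intro y hy
        have hy' := Finset.mem_coe.1 hy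
        rw [Finset.mem_filter] at hy'
        obtain ⟨hyB, hc, hσ, hwit⟩ := hy'
        have hyB' := hyB
        rw [hBad, Finset.mem_filter] at hyB'
        obtain ⟨-, -, -, -, hker⟩ := hyB'
        have hag : ∀ l ∈ T, col y.2 l = D0 l := by
          intro l hl
          rw [hTdef] at hl
          simp only [Th, Finset.mem_filter, Finset.mem_univ, true_and] at hl
          obtain ⟨i, hi⟩ := hl
          rw [hσ i l hi, hD0, hσ0 i l hi]
        rw [Finset.mem_coe, Finset.mem_sigma]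
        refine ⟨?_, ?_⟩
        · rw [hPi, Fintype.mem_piFinset]
          intro k
          by_cases hk : k ∈ T
          · rw [if_pos hk, Finset.mem_singleton]
            exact hag k hk
          · rw [if_neg hk, mem_VV]
            intro p hp
            rw [← AA_congr g T D0 hag, mem_AA] at hp
            exact hwit (g k) p.1 p.2 hp k rfl
        · simp only [hNs]
          rw [Finset.mem_filter]
          refine ⟨Finset.mem_univ _, ?_⟩
          intro x k hk
          have h2 := hker x k (by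
            simp only [Lc, Finset.mem_filter, Finset.mem_univ, true_and]
            exact hk)
          have h3 : y.2 x = (c x, fun k => col y.2 k x) := Prod.ext (hc x) rfl
          simp only [hf]
          rw [← h3]
          exact h2
      · intro y hy y' hy' heq
        have hy1 := Finset.mem_coe.1 hy
        have hy1' := Finset.mem_coe.1 hy'
        rw [Finset.mem_filter] at hy1 hy1'
        simp only [Sigma.mk.injEq] at heq
        obtain ⟨h2, h3⟩ := heq
        refine Prod.ext (eq_of_heq h3) (funext fun x => Prod.ext ?_ (funext fun k => ?_))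
        · rw [hy1.2.1 x, hy1'.2.1 x]
        · exact congrFun (congrFun h2 k) x
    rw [Finset.card_sigma] at h1
    have h2 : ((Cell (h, c, σ)).card : ℝ) ≤ ∑ D' ∈ Pi, ((Ns D').card : ℝ) := by
      exact_mod_cast h1
    have h3 : ∑ D' ∈ Pi, ((Ns D').card : ℝ) ≤ ∑ D' ∈ Pi, 2 ^ (prs J).card *
        ∏ k ∈ Tᶜ, (((RR e g T D' (g k) (D' k)).card : ℝ) / 2 ^ M) :=
      Finset.sum_le_sum fun D' _ => count e g T D' tJ (f D')
    rw [← Finset.mul_sum] at h3
    have h4 := sum_cols e g T D0 hD q0 hq0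
    have h5 : (K' + t0 + 1) * n0 - t0 ≤ (univ.filter fun k => g k = q0).card - T.card :=
      (Nat.sub_le_sub_right (hmany q0) _).trans (Nat.sub_le_sub_left (hTh h) _)
    have h6 := pow_le_pow_of_le_one hθ0 hθ1 h5
    have h7 : (0 : ℝ) ≤ 2 ^ (prs J).card := by positivity
    exact h2.trans (h3.trans (mul_le_mul_of_nonneg_left (h4.trans h6) h7))
  -- the union bound
  have h1 : (Bad.card : ℝ) ≤ ∑ s, ((Cell s).card : ℝ) := by
    have := (Finset.card_le_card hcover).trans Finset.card_biUnion_le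
    exact_mod_cast this
  have h2 := h1.trans (Finset.sum_le_sum fun s _ => hcell s)
  rw [Finset.sum_const, Finset.card_univ, nsmul_eq_mul] at h2
  have hidx : (Fintype.card ((Fin t0 → Option J) × ((Σ a, Fin (m a)) → U → ZMod 2) ×
      (Fin t0 → (Σ a, Fin (m a)) → ZMod 2)) : ℝ) =
      ((Fintype.card J : ℝ) + 1) ^ t0 * ((2 ^ Fintype.card U) ^ M * (2 ^ M) ^ t0) := by
    rw [Fintype.card_prod, Fintype.card_prod, Fintype.card_fun, Fintype.card_fun,
      Fintype.card_fun, Fintype.card_fun, Fintype.card_fun, Fintype.card_option, Fintype.card_fin,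
      ZMod.card]
    push_cast
    rfl
  rw [hidx] at h2
  have hA : K' * n0 ≤ (K' + t0 + 1) * n0 - t0 := by
    have h3 : 1 ≤ n0 := by omega
    have h4 : t0 ≤ (t0 + 1) * n0 :=
      (Nat.le_succ t0).trans (Nat.le_mul_of_pos_right _ h3)
    have h5 : (K' + t0 + 1) * n0 = K' * n0 + (t0 + 1) * n0 := by ring
    omega
  have hj : Fintype.card J + 1 ≤ 2 ^ (Nat.log 2 (Fintype.card J) + 1) :=
    Nat.lt_pow_succ_log_self (by norm_num) _
  have h3 := hK' n0 (Fintype.card U) (Nat.log 2 (Fintype.card J)) (Fintype.card J) hn0 hj _ hA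
  refine h2.trans ?_
  have h4 : (0 : ℝ) ≤ 2 ^ (prs J).card := by positivity
  calc _ = (((Fintype.card J : ℝ) + 1) ^ t0 * ((2 ^ Fintype.card U) ^ M * (2 ^ M) ^ t0) *
        (1 - 1 / 2 ^ (M + 1) : ℝ) ^ ((K' + t0 + 1) * n0 - t0)) * 2 ^ (prs J).card := by ring
    _ ≤ δ * 2 ^ (prs J).card := mul_le_mul_of_nonneg_right h3 h4

end Pool.Agent.N869.QT.L.LA3C
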