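import Pool.Agent.N869.QT.L.Stm

/-!
QT-LA4 (helper424): the assembly of the coloured linear algebra (after `Pool/Agent/R426/QJ/LA4.lean`).
-/

set_option autoImplicit false
set_option linter.unusedVariables false
set_option linter.unusedSectionVars false

open scoped Classical

namespace Pool.Agent.N869.QT.L.LA4

open Finset Pool.Agent.N869.QT.L

/-- the number of the linearly independent tuples -/
theorem card_li {V : Type} [AddCommGroup V] [Module (ZMod 2) V] [Finite V] (m : ℕ) :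
    (Nat.card {s : Fin m → V // LinearIndependent (ZMod 2) s} : ℝ) =
      ∏ i ∈ range m, ((2 : ℝ) ^ Module.finrank (ZMod 2) V - 2 ^ i) := by
  have hfin : Module.Finite (ZMod 2) V := Module.Finite.of_finite
  by_cases hm : m ≤ Module.finrank (ZMod 2) V
  · rw [card_linearIndependent hm, ZMod.card, Nat.cast_prod, Finset.prod_range]
    apply Finset.prod_congr rfl
    intro i _
    rw [Nat.cast_sub]
    · push_cast; rfl
    · exact Nat.pow_le_pow_right (by norm_num) (by omega)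
  · rw [Finset.prod_eq_zero (i := Module.finrank (ZMod 2) V)]
    · have : IsEmpty {s : Fin m → V // LinearIndependent (ZMod 2) s} := by
        constructor
        rintro ⟨s, hs⟩
        have := hs.fintype_card_le_finrank
        rw [Fintype.card_fin] at this
        exact hm this
      rw [Nat.card_of_isEmpty, Nat.cast_zero]
    · rw [Finset.mem_range]; omega
    · rw [sub_self]

section

variable {U J : Type} [Fintype U] [Fintype J] [LinearOrder J]

theorem two_eq : (2 : ZMod 2) = 0 := rfl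

/-- the row of a small prime -/
def rU (W : Finset U) (L : Finset J) (sU : U → ZMod 2) (A : U → U → ZMod 2) (B : U → J → ZMod 2)
    (x : (U → ZMod 2) × (J → ZMod 2)) (u : U) : ZMod 2 :=
  sU u * x.1 u + ∑ v ∈ W, A u v * (x.1 u + x.1 v) + ∑ l ∈ L, B u l * (x.1 u + x.2 l)

/-- the row of a large prime -/
def rJ (W : Finset U) (L : Finset J) (tU : U → ZMod 2) (sJ tJ : J → ZMod 2) (B : U → J → ZMod 2)
    (R : J → J → ZMod 2) (x : (U → ZMod 2) × (J → ZMod 2)) (k : J) : ZMod 2 :=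
  fJ W tU sJ tJ B x k + ∑ l ∈ L, R k l * (x.2 k + x.2 l)

theorem rU_add (W : Finset U) (L : Finset J) (sU : U → ZMod 2) (A : U → U → ZMod 2)
    (B : U → J → ZMod 2) (x y : (U → ZMod 2) × (J → ZMod 2)) (u : U) :
    rU W L sU A B (x + y) u = rU W L sU A B x u + rU W L sU A B y u := by
  unfold rU
  simp only [Prod.fst_add, Prod.snd_add, Pi.add_apply]
  have h1 : ∑ v ∈ W, A u v * (x.1 u + y.1 u + (x.1 v + y.1 v)) =
      ∑ v ∈ W, A u v * (x.1 u + x.1 v) + ∑ v ∈ W, A u v * (y.1 u + y.1 v) := by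
    rw [← Finset.sum_add_distrib]
    exact Finset.sum_congr rfl fun v _ => by ring
  have h2 : ∑ l ∈ L, B u l * (x.1 u + y.1 u + (x.2 l + y.2 l)) =
      ∑ l ∈ L, B u l * (x.1 u + x.2 l) + ∑ l ∈ L, B u l * (y.1 u + y.2 l) := by
    rw [← Finset.sum_add_distrib]
    exact Finset.sum_congr rfl fun v _ => by ring
  rw [h1, h2]; ring

theorem rU_smul (W : Finset U) (L : Finset J) (sU : U → ZMod 2) (A : U → U → ZMod 2)
    (B : U → J → ZMod 2) (a : ZMod 2) (x : (U → ZMod 2) × (J → ZMod 2)) (u : U) :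
    rU W L sU A B (a • x) u = a * rU W L sU A B x u := by
  unfold rU
  simp only [Prod.smul_fst, Prod.smul_snd, Pi.smul_apply, smul_eq_mul]
  rw [mul_add, mul_add, Finset.mul_sum, Finset.mul_sum]
  congr 1
  · congr 1
    · ring
    · exact Finset.sum_congr rfl fun v _ => by ring
  · exact Finset.sum_congr rfl fun v _ => by ring

theorem rJ_add (W : Finset U) (L : Finset J) (tU : U → ZMod 2) (sJ tJ : J → ZMod 2)
    (B : U → J → ZMod 2) (R : J → J → ZMod 2) (x y : (U → ZMod 2) × (J → ZMod 2)) (k : J) :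
    rJ W L tU sJ tJ B R (x + y) k = rJ W L tU sJ tJ B R x k + rJ W L tU sJ tJ B R y k := by
  unfold rJ fJ
  simp only [Prod.fst_add, Prod.snd_add, Pi.add_apply]
  have h1 : ∑ u ∈ W, (B u k + tU u * tJ k) * (x.2 k + y.2 k + (x.1 u + y.1 u)) =
      ∑ u ∈ W, (B u k + tU u * tJ k) * (x.2 k + x.1 u) +
        ∑ u ∈ W, (B u k + tU u * tJ k) * (y.2 k + y.1 u) := by
    rw [← Finset.sum_add_distrib]
    exact Finset.sum_congr rfl fun v _ => by ring
  have h2 : ∑ l ∈ L, R k l * (x.2 k + y.2 k + (x.2 l + y.2 l)) =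
      ∑ l ∈ L, R k l * (x.2 k + x.2 l) + ∑ l ∈ L, R k l * (y.2 k + y.2 l) := by
    rw [← Finset.sum_add_distrib]
    exact Finset.sum_congr rfl fun v _ => by ring
  rw [h1, h2]; ring

theorem rJ_smul (W : Finset U) (L : Finset J) (tU : U → ZMod 2) (sJ tJ : J → ZMod 2)
    (B : U → J → ZMod 2) (R : J → J → ZMod 2) (a : ZMod 2) (x : (U → ZMod 2) × (J → ZMod 2))
    (k : J) : rJ W L tU sJ tJ B R (a • x) k = a * rJ W L tU sJ tJ B R x k := by
  unfold rJ fJ
  simp only [Prod.smul_fst, Prod.smul_snd, Pi.smul_apply, smul_eq_mul]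
  rw [mul_add, mul_add, Finset.mul_sum, Finset.mul_sum]
  congr 1
  · congr 1
    · ring
    · exact Finset.sum_congr rfl fun v _ => by ring
  · exact Finset.sum_congr rfl fun v _ => by ring

/-- the kernel of the system of `W` and `L` -/
def Kr (W : Finset U) (L : Finset J) (sU tU : U → ZMod 2) (sJ tJ : J → ZMod 2)
    (A : U → U → ZMod 2) (B : U → J → ZMod 2) (R : J → J → ZMod 2) :
    Submodule (ZMod 2) ((U → ZMod 2) × (J → ZMod 2)) where
  carrier := {x | ((∀ u, u ∉ W → x.1 u = 0) ∧ (∀ k, k ∉ L → x.2 k = 0) ∧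
    ∀ u ∈ W, rU W L sU A B x u = 0) ∧ ∀ k ∈ L, rJ W L tU sJ tJ B R x k = 0}
  zero_mem' := by
    refine ⟨⟨fun u _ => rfl, fun k _ => rfl, fun u _ => ?_⟩, fun k _ => ?_⟩
    · have := rU_smul W L sU A B 0 0 u
      simpa using this
    · have := rJ_smul W L tU sJ tJ B R 0 0 k
      simpa using this
  add_mem' := by
    rintro x y ⟨⟨h1, h0, h2⟩, h3⟩ ⟨⟨h4, h0', h5⟩, h6⟩
    refine ⟨⟨fun u hu => ?_, fun k hk => ?_, fun u hu => ?_⟩, fun k hk => ?_⟩
    · rw [Prod.fst_add, Pi.add_apply, h1 u hu, h4 u hu, add_zero]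
    · rw [Prod.snd_add, Pi.add_apply, h0 k hk, h0' k hk, add_zero]
    · rw [rU_add, h2 u hu, h5 u hu, add_zero]
    · rw [rJ_add, h3 k hk, h6 k hk, add_zero]
  smul_mem' := by
    rintro a x ⟨⟨h1, h0, h2⟩, h3⟩
    refine ⟨⟨fun u hu => ?_, fun k hk => ?_, fun u hu => ?_⟩, fun k hk => ?_⟩
    · rw [Prod.smul_fst, Pi.smul_apply, h1 u hu, smul_zero]
    · rw [Prod.smul_snd, Pi.smul_apply, h0 k hk, smul_zero]
    · rw [rU_smul, h2 u hu, mul_zero]
    · rw [rJ_smul, h3 k hk, mul_zero]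

variable {W : Finset U} {L : Finset J} {sU tU : U → ZMod 2} {sJ tJ : J → ZMod 2}
  {A : U → U → ZMod 2} {B : U → J → ZMod 2} {R : J → J → ZMod 2}

theorem mem_Kr {x : (U → ZMod 2) × (J → ZMod 2)} :
    x ∈ Kr W L sU tU sJ tJ A B R ↔ SmC W L sU A B x ∧ KrC W L tU sJ tJ B R x := Iff.rfl

theorem gd_iff :
    GdL W L sU tU sJ tJ A B R ↔ Module.finrank (ZMod 2) (Kr W L sU tU sJ tJ A B R) = 0 := by
  rw [Submodule.finrank_eq_zero, Submodule.eq_bot_iff]
  constructor
  · rintro h ⟨c, d⟩ hx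
    obtain ⟨h1, h2⟩ := h c d hx.1.1 hx.1.2.1 (fun u hu => hx.1.2.2 u hu) (fun k hk => hx.2 k hk)
    ext i
    · exact h1 i
    · exact h2 i
  · intro h c d h0 h0' h1 h2
    have := h (c, d) ⟨⟨h0, h0', fun u hu => h1 u hu⟩, fun k hk => h2 k hk⟩
    rw [Prod.mk_eq_zero] at this
    exact ⟨fun u => congrFun this.1 u, fun l => congrFun this.2 l⟩

/-- linear independence in the kernel -/
theorem li_iff {k0 : J} (hk0 : k0 ∈ L)
    (h4 : ∀ (w : U → ZMod 2) (e : ZMod 2), ((∃ u, w u ≠ 0) ∨ e ≠ 0) →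
      ∃ k ∈ L, e * sJ k + ∑ u, w u * (B u k + tU u * tJ k) ≠ 0) {m : ℕ}
    (s : Fin m → Kr W L sU tU sJ tJ A B R) :
    LinearIndependent (ZMod 2) s ↔ IndC L (fun i => (s i).1.2) := by
  rw [Fintype.linearIndependent_iff]
  have hsum2 : ∀ (a : Fin m → ZMod 2) (k : J),
      (((∑ i, a i • s i : Kr W L sU tU sJ tJ A B R) : (U → ZMod 2) × (J → ZMod 2)).2 k) =
        ∑ i, a i * (s i).1.2 k := by
    intro a k
    rw [Submodule.coe_sum, Prod.snd_sum, Finset.sum_apply]
    rfl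
  constructor
  · intro h a ⟨i0, hi0⟩
    by_contra hcon
    push Not at hcon
    apply hi0
    refine h a ?_ i0
    obtain ⟨y, hy⟩ : ∃ y, y = ∑ i, a i • s i := ⟨_, rfl⟩
    rw [← hy]
    have hyk : ∀ k, y.1.2 k = ∑ i, a i * (s i).1.2 k := by
      intro k; rw [hy]; exact hsum2 a k
    have hconst : ∀ l ∈ L, y.1.2 l = y.1.2 k0 := by
      intro l hl
      have h1 := hcon l hl k0 hk0
      simp_rw [mul_add] at h1
      rw [Finset.sum_add_distrib, ← hyk, ← hyk] at h1
      have h2 : y.1.2 l = -y.1.2 k0 := eq_neg_of_add_eq_zero_left h1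
      rw [h2, ZMod.neg_eq_self_mod_two]
    have hy1 := y.2.1.1
    have hy1' := y.2.1.2.1
    have hy2 := y.2.2
    by_contra hy0
    have hor : (∃ u, (if u ∈ W then y.1.1 u + y.1.2 k0 else 0) ≠ 0) ∨ y.1.2 k0 ≠ 0 := by
      by_contra hn
      push Not at hn
      obtain ⟨hn1, hn2⟩ := hn
      apply hy0
      apply Subtype.ext
      ext i
      · by_cases hi : i ∈ W
        · have := hn1 i
          rw [if_pos hi, hn2, add_zero] at this
          exact this
        · exact hy1 i hi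
      · change y.1.2 i = 0
        by_cases hi : i ∈ L
        · rw [hconst i hi, hn2]
        · exact hy1' i hi
    obtain ⟨k, hkL, hk⟩ := h4 (fun u => if u ∈ W then y.1.1 u + y.1.2 k0 else 0) (y.1.2 k0) hor
    apply hk
    have h5 : rJ W L tU sJ tJ B R y.1 k = 0 := hy2 k hkL
    unfold rJ fJ at h5
    rw [hconst k hkL] at h5
    have h6 : ∑ l ∈ L, R k l * (y.1.2 k0 + y.1.2 l) = 0 := by
      apply Finset.sum_eq_zero
      intro l hl
      rw [hconst l hl, ← two_mul, two_eq, zero_mul, mul_zero]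
    rw [h6, add_zero] at h5
    refine Eq.trans ?_ h5
    congr 1
    · ring
    · have h7 : ∑ u ∈ W, (B u k + tU u * tJ k) * (y.1.2 k0 + y.1.1 u) =
          ∑ u, if u ∈ W then (B u k + tU u * tJ k) * (y.1.2 k0 + y.1.1 u) else 0 := by
        rw [Finset.sum_ite_mem, Finset.univ_inter]
      rw [h7]
      apply Finset.sum_congr rfl
      intro u _
      by_cases hu : u ∈ W
      · rw [if_pos hu, if_pos hu]; ring
      · rw [if_neg hu, if_neg hu, zero_mul]
  · intro h a ha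
    by_contra hcon
    push Not at hcon
    obtain ⟨k, hk, l, hl, hkl⟩ := h a hcon
    apply hkl
    simp_rw [mul_add]
    rw [Finset.sum_add_distrib, ← hsum2 a k, ← hsum2 a l, ha]
    change (0 : ZMod 2) + 0 = 0
    rw [add_zero]

end

/-- strong independence implies independence in each of the systems -/
theorem ind_sub {I Q : Type} [Fintype I] {E : I → Finset Q} (hE : Fam E) {J : Type} [Fintype J]
    {g : J → Q} {m : I → ℕ} {d : (Σ i, Fin (m i)) → J → ZMod 2}
    (h : StrC E g d) (i : I) : IndC (Lc E g i) (fun a : Fin (m i) => d ⟨i, a⟩) := by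
  intro w ⟨a, ha⟩
  obtain ⟨q, hq⟩ := hE.ne i
  obtain ⟨k, l, hk, hl, hkl⟩ := h q (fun b => if hb : b.1 = i then w (hb ▸ b.2) else 0) (by
    intro x hx
    have : ¬ x.1 = i := by
      intro h0
      rw [h0] at hx
      exact hx hq
    exact dif_neg this) ⟨⟨i, a⟩, by simpa using ha⟩
  have hm : ∀ k, g k = q → k ∈ Lc E g i := by
    intro k hk
    unfold Lc
    rw [Finset.mem_filter]
    exact ⟨Finset.mem_univ _, by rw [hk]; exact hq⟩
  refine ⟨k, hm k hk, l, hm l hl, ?_⟩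
  intro h0
  apply hkl
  refine Eq.trans ?_ h0
  rw [← Finset.univ_sigma_univ, Finset.sum_sigma]
  rw [Finset.sum_eq_single i]
  · apply Finset.sum_congr rfl
    intro b _
    simp
  · intro j _ hj
    apply Finset.sum_eq_zero
    intro b _
    rw [dif_neg hj, zero_mul]
  · intro h; exact absurd (Finset.mem_univ i) h

theorem hyp_mono {U J : Type} [Fintype U] [Fintype J] {I Q : Type} {K K' : ℕ}
    {W : I → Finset U} {E : I → Finset Q} {g : J → Q} {sU tU : U → ZMod 2} {sJ tJ : J → ZMod 2}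
    {A : U → U → ZMod 2} {B : U → J → ZMod 2} (hK : K' ≤ K) (h : HypC K W E g sU tU sJ tJ A B) :
    HypC K' W E g sU tU sJ tJ A B where
  many q := (Nat.mul_le_mul_right _ hK).trans (h.many q)
  par := h.par
  recip := h.recip
  nd := h.nd

theorem t_LA4C : S_LA4C := by
  intro hMOM hLA1 hLA2 hLA3 I Q0 _ _ E hE ε hε
  obtain ⟨M, δ, hδ, hM⟩ := hMOM I ε hε
  choose K2 h2 using fun m => hLA2 I Q0 E hE m (δ / 2) (half_pos hδ)
  choose K3 h3 using fun m => hLA3 I Q0 E hE m (δ / 2) (half_pos hδ)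
  obtain ⟨P, hP⟩ : ∃ P : Finset (I → ℕ), P = Fintype.piFinset fun _ : I => range (M + 1) :=
    ⟨_, rfl⟩
  refine ⟨P.sup K2 + P.sup K3, ?_⟩
  intro U J _ _ _ W g sU tU sJ tJ A B hyp
  have hmL : ∀ (a : I) (q : Q0), q ∈ E a → ∀ k, g k = q → k ∈ Lc E g a := by
    intro a q hq k hk
    unfold Lc
    rw [Finset.mem_filter]
    exact ⟨Finset.mem_univ _, by rw [hk]; exact hq⟩
  have hnd : ∀ (a : I) (w : U → ZMod 2) (e : ZMod 2), ((∃ u, w u ≠ 0) ∨ e ≠ 0) →
      ∃ k ∈ Lc E g a, e * sJ k + ∑ u, w u * (B u k + tU u * tJ k) ≠ 0 := by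
    intro a w e h
    obtain ⟨q, hq⟩ := hE.ne a
    obtain ⟨k, hk1, hk2⟩ := (hyp.nd q w e h).1
    exact ⟨k, hmL a q hq k hk1, hk2⟩
  have hJ : ∀ a : I, ∃ k0 : J, k0 ∈ Lc E g a := by
    intro a
    obtain ⟨k, hk, _⟩ := hnd a 0 1 (Or.inr one_ne_zero)
    exact ⟨k, hk⟩
  choose k0 hk0 using hJ
  have hcardΩ : (Fintype.card (prs J → ZMod 2) : ℝ) = 2 ^ (prs J).card := by
    rw [Fintype.card_fun, ZMod.card, Fintype.card_coe]
    push_cast
    rfl
  have key := hM (prs J → ZMod 2)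
    (fun α i => Module.finrank (ZMod 2) (Kr (W i) (Lc E g i) sU tU sJ tJ A B (ext tJ α))) ?_
  · rw [hcardΩ] at key
    have h1 : (univ.filter fun α : prs J → ZMod 2 =>
          ∀ a, GdL (W a) (Lc E g a) sU tU sJ tJ A B (ext tJ α)) =
        univ.filter fun α : prs J → ZMod 2 =>
          ∀ i, Module.finrank (ZMod 2) (Kr (W i) (Lc E g i) sU tU sJ tJ A B (ext tJ α)) = 0 :=
      Finset.filter_congr fun α _ => forall_congr' fun i => gd_iff
    rw [h1]
    exact key
  · intro m hm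
    have hmP : m ∈ P := by
      rw [hP, Fintype.mem_piFinset]
      intro i
      rw [Finset.mem_range]
      have := hm i
      omega
    have hyp2 : HypC (K2 m) W E g sU tU sJ tJ A B :=
      hyp_mono ((Finset.le_sup (f := K2) hmP).trans (by omega)) hyp
    have hyp3 : HypC (K3 m) W E g sU tU sJ tJ A B :=
      hyp_mono ((Finset.le_sup (f := K3) hmP).trans (by omega)) hyp
    have hres2 := h2 m U J W g sU tU sJ tJ A B hyp2
    have hres3 := h3 m U J W g tU sJ tJ B (fun q => (hyp3.many q).trans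
      (Finset.card_le_card fun k hk => by
        rw [Finset.mem_filter] at hk ⊢
        exact ⟨hk.1, hk.2.1⟩))
    -- the tuples
    obtain ⟨Q, hQ⟩ : ∃ Q : (prs J → ZMod 2) → ((Σ i, Fin (m i)) → (U → ZMod 2) × (J → ZMod 2)) → Prop,
      ∀ α x, Q α x ↔ ∀ a, x a ∈ Kr (W a.1) (Lc E g a.1) sU tU sJ tJ A B (ext tJ α) :=
      ⟨fun α x => ∀ a, x a ∈ Kr (W a.1) (Lc E g a.1) sU tU sJ tJ A B (ext tJ α),
        fun _ _ => Iff.rfl⟩
    have hcount : ∀ α : prs J → ZMod 2, ∏ i, ∏ a ∈ range (m i),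
        ((2 : ℝ) ^ Module.finrank (ZMod 2) (Kr (W i) (Lc E g i) sU tU sJ tJ A B (ext tJ α)) - 2 ^ a) =
        ((univ.filter fun x : (Σ i, Fin (m i)) → (U → ZMod 2) × (J → ZMod 2) =>
          (∀ i, IndC (Lc E g i) (fun a : Fin (m i) => (x ⟨i, a⟩).2)) ∧ Q α x).card : ℝ) := by
      intro α
      have e1 : ∀ i, ∏ a ∈ range (m i),
        ((2 : ℝ) ^ Module.finrank (ZMod 2) (Kr (W i) (Lc E g i) sU tU sJ tJ A B (ext tJ α)) - 2 ^ a) =
          (Nat.card {s : Fin (m i) → Kr (W i) (Lc E g i) sU tU sJ tJ A B (ext tJ α) //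
            LinearIndependent (ZMod 2) s} : ℝ) := fun i => (card_li (m i)).symm
      rw [Finset.prod_congr rfl fun i _ => e1 i, ← Nat.cast_prod, ← Nat.card_pi]
      congr 1
      rw [← Fintype.card_coe, ← Nat.card_eq_fintype_card]
      apply Nat.card_congr
      refine
        { toFun := fun s => ⟨fun a => ((s a.1).1 a.2).1, ?_⟩
          invFun := fun x => fun i => ⟨fun a => ⟨x.1 ⟨i, a⟩, ?_⟩, ?_⟩
          left_inv := ?_
          right_inv := ?_ }
      · rw [Finset.mem_filter, hQ]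
        refine ⟨Finset.mem_univ _, fun i => ?_, fun a => ?_⟩
        · exact (li_iff (hk0 i) (hnd i) (s i).1).1 (s i).2
        · exact ((s a.1).1 a.2).2
      · have hx := (Finset.mem_filter.1 x.2).2.2
        rw [hQ] at hx
        exact hx ⟨i, a⟩
      · have hx := (Finset.mem_filter.1 x.2).2.1
        exact (li_iff (hk0 i) (hnd i) _).2 (hx i)
      · intro s; rfl
      · intro x; rfl
    rw [Finset.sum_congr rfl fun α _ => hcount α, ← Nat.cast_sum, hcardΩ]
    -- the pairs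
    have hpairs : ∑ α : prs J → ZMod 2,
        (univ.filter fun x : (Σ i, Fin (m i)) → (U → ZMod 2) × (J → ZMod 2) =>
          (∀ i, IndC (Lc E g i) (fun a : Fin (m i) => (x ⟨i, a⟩).2)) ∧ Q α x).card =
        (univ.filter fun y : (prs J → ZMod 2) × ((Σ i, Fin (m i)) → (U → ZMod 2) × (J → ZMod 2)) =>
          (∀ i, IndC (Lc E g i) (fun a : Fin (m i) => (y.2 ⟨i, a⟩).2)) ∧ Q y.1 y.2).card := by
      rw [Finset.card_filter, ← Finset.univ_product_univ, Finset.sum_product]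
      apply Finset.sum_congr rfl
      intro α _
      rw [Finset.card_filter]
    rw [hpairs]
    have hsplit : (univ.filter fun y : (prs J → ZMod 2) × ((Σ i, Fin (m i)) →
          (U → ZMod 2) × (J → ZMod 2)) =>
          (∀ i, IndC (Lc E g i) (fun a : Fin (m i) => (y.2 ⟨i, a⟩).2)) ∧ Q y.1 y.2).card =
        (univ.filter fun y : (prs J → ZMod 2) × ((Σ i, Fin (m i)) →
          (U → ZMod 2) × (J → ZMod 2)) => StrC E g (fun a => (y.2 a).2) ∧ Q y.1 y.2).card +
        (univ.filter fun y : (prs J → ZMod 2) × ((Σ i, Fin (m i)) →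
          (U → ZMod 2) × (J → ZMod 2)) =>
      (∀ i, IndC (Lc E g i) (fun a : Fin (m i) => (y.2 ⟨i, a⟩).2)) ∧
      ¬ StrC E g (fun a => (y.2 a).2) ∧ Q y.1 y.2).card := by
      rw [← Finset.card_union_of_disjoint]
      · congr 1
        ext y
        rw [Finset.mem_union, Finset.mem_filter, Finset.mem_filter, Finset.mem_filter]
        constructor
        · rintro ⟨_, h5, h6⟩
          by_cases h7 : StrC E g (fun a => (y.2 a).2)
          · exact Or.inl ⟨Finset.mem_univ _, h7, h6⟩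
          · exact Or.inr ⟨Finset.mem_univ _, h5, h7, h6⟩
        · rintro (⟨_, h5, h6⟩ | ⟨_, h5, h6, h7⟩)
          · exact ⟨Finset.mem_univ _, fun i => ind_sub hE (d := fun a => (y.2 a).2) h5 i, h6⟩
          · exact ⟨Finset.mem_univ _, h5, h7⟩
      · rw [Finset.disjoint_left]
        intro y hy hy'
        rw [Finset.mem_filter] at hy hy'
        exact hy'.2.2.1 hy.2.1
    -- the strongly independent tuples
    obtain ⟨T, hT⟩ : ∃ T : Finset ((Σ i, Fin (m i)) → (U → ZMod 2) × (J → ZMod 2)),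
      T = univ.filter fun x => StrC E g (fun a => (x a).2) ∧
        ∀ a, SmC (W a.1) (Lc E g a.1) sU A B (x a) := ⟨_, rfl⟩
    have hTm : ∀ x, x ∈ T ↔ StrC E g (fun a => (x a).2) ∧
        ∀ a, SmC (W a.1) (Lc E g a.1) sU A B (x a) := by
      intro x
      rw [hT, Finset.mem_filter]
      exact ⟨fun h => h.2, fun h => ⟨Finset.mem_univ _, h⟩⟩
    have hN1 : (univ.filter fun y : (prs J → ZMod 2) × ((Σ i, Fin (m i)) →
          (U → ZMod 2) × (J → ZMod 2)) => StrC E g (fun a => (y.2 a).2) ∧ Q y.1 y.2).card =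
        ∑ x ∈ T, (univ.filter fun α : prs J → ZMod 2 =>
          ∀ a, ∀ k ∈ Lc E g a.1, fJ (W a.1) tU sJ tJ B (x a) k +
            ∑ l ∈ Lc E g a.1, ext tJ α k l * ((x a).2 k + (x a).2 l) = 0).card := by
      rw [Finset.card_filter, ← Finset.univ_product_univ, Finset.sum_product_right, hT,
        Finset.sum_filter]
      apply Finset.sum_congr rfl
      intro x _
      rw [Finset.card_filter]
      split_ifs with h5
      · apply Finset.sum_congr rfl
        intro α _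
        congr 1
        rw [eq_iff_iff, hQ]
        constructor
        · rintro ⟨_, h7⟩ a k hk
          exact (h7 a).2 k hk
        · intro h7
          exact ⟨h5.1, fun a => ⟨h5.2 a, fun k hk => h7 a k hk⟩⟩
      · apply Finset.sum_eq_zero
        intro α _
        rw [if_neg]
        rintro ⟨h6, h7⟩
        rw [hQ] at h7
        exact h5 ⟨h6, fun a => (h7 a).1⟩
    have hmul : (∑ x ∈ T, (univ.filter fun α : prs J → ZMod 2 =>
          ∀ a, ∀ k ∈ Lc E g a.1, fJ (W a.1) tU sJ tJ B (x a) k +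
            ∑ l ∈ Lc E g a.1, ext tJ α k l * ((x a).2 k + (x a).2 l) = 0).card) *
          2 ^ (∑ a, m a * ((Lc E g a).card - 1)) =
        (univ.filter fun x : (Σ a, Fin (m a)) → (U → ZMod 2) × (J → ZMod 2) =>
      StrC E g (fun p => (x p).2) ∧ (∀ p, URC (W p.1) (Lc E g p.1) sU tU sJ tJ A B (x p)) ∧
      ∀ (a : I) (i j : Fin (m a)), i ≠ j →
        c2C (Lc E g a) tJ (fJ (W a) tU sJ tJ B (x ⟨a, i⟩)) (x ⟨a, i⟩).2
          (fJ (W a) tU sJ tJ B (x ⟨a, j⟩)) (x ⟨a, j⟩).2 = 0).card *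
          2 ^ ((prs J).card + ∑ a, (m a).choose 2) := by
      obtain ⟨Pr, hPr⟩ : ∃ Pr : ((Σ i, Fin (m i)) → (U → ZMod 2) × (J → ZMod 2)) → Prop,
          ∀ x, Pr x ↔ ((∀ p : (Σ i, Fin (m i)), c1C (Lc E g p.1) tJ
              (fJ (W p.1) tU sJ tJ B (x p)) (x p).2 = 0) ∧
            ∀ (a : I) (i j : Fin (m a)), i ≠ j →
              c2C (Lc E g a) tJ (fJ (W a) tU sJ tJ B (x ⟨a, i⟩)) (x ⟨a, i⟩).2
                (fJ (W a) tU sJ tJ B (x ⟨a, j⟩)) (x ⟨a, j⟩).2 = 0) :=
        ⟨_, fun _ => Iff.rfl⟩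
      rw [Finset.sum_mul]
      have h5 : ∀ x ∈ T, (univ.filter fun α : prs J → ZMod 2 =>
          ∀ a, ∀ k ∈ Lc E g a.1, fJ (W a.1) tU sJ tJ B (x a) k +
            ∑ l ∈ Lc E g a.1, ext tJ α k l * ((x a).2 k + (x a).2 l) = 0).card *
          2 ^ (∑ a, m a * ((Lc E g a).card - 1)) =
          if Pr x then 2 ^ ((prs J).card + ∑ a, (m a).choose 2) else 0 := by
        intro x hx
        rw [hTm] at hx
        have := hLA1 I Q0 J E g m tJ (fun p => fJ (W p.1) tU sJ tJ B (x p)) (fun p => (x p).2)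
          hE hx.1
        refine this.trans ?_
        by_cases hp : Pr x
        · rw [if_pos hp, if_pos ((hPr x).1 hp)]
        · rw [if_neg hp, if_neg fun h' => hp ((hPr x).2 h')]
      rw [Finset.sum_congr rfl h5, ← Finset.sum_filter, Finset.sum_const, smul_eq_mul]
      congr 2
      rw [hT, Finset.filter_filter]
      apply Finset.filter_congr
      intro x _
      constructor
      · rintro ⟨⟨h6, h7⟩, h8'⟩
        obtain ⟨h8, h9⟩ := (hPr x).1 h8'
        exact ⟨h6, fun a => ⟨h7 a, h8 a⟩, h9⟩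
      · rintro ⟨h6, h7, h8⟩
        exact ⟨⟨h6, fun a => (h7 a).1⟩, (hPr x).2 ⟨fun a => (h7 a).2, h8⟩⟩
    rw [hsplit, hN1]
    obtain ⟨N1, hN1'⟩ : ∃ N1 : ℕ, N1 = ∑ x ∈ T, (univ.filter fun α : prs J → ZMod 2 =>
          ∀ a, ∀ k ∈ Lc E g a.1, fJ (W a.1) tU sJ tJ B (x a) k +
            ∑ l ∈ Lc E g a.1, ext tJ α k l * ((x a).2 k + (x a).2 l) = 0).card := ⟨_, rfl⟩
    rw [← hN1'] at hmul ⊢
    obtain ⟨N2, hN2⟩ : ∃ N2 : ℕ, N2 =
        (univ.filter fun x : (Σ a, Fin (m a)) → (U → ZMod 2) × (J → ZMod 2) =>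
      StrC E g (fun p => (x p).2) ∧ (∀ p, URC (W p.1) (Lc E g p.1) sU tU sJ tJ A B (x p)) ∧
      ∀ (a : I) (i j : Fin (m a)), i ≠ j →
        c2C (Lc E g a) tJ (fJ (W a) tU sJ tJ B (x ⟨a, i⟩)) (x ⟨a, i⟩).2
          (fJ (W a) tU sJ tJ B (x ⟨a, j⟩)) (x ⟨a, j⟩).2 = 0).card := ⟨_, rfl⟩
    rw [← hN2] at hmul
    have hfin2 : |(N2 : ℝ) * 2 ^ (∑ a, (m a).choose 2) /
        2 ^ (∑ a, m a * ((Lc E g a).card - 1)) - 1| ≤ δ / 2 := by
      rw [hN2]
      exact hres2
    obtain ⟨N3, hN3⟩ : ∃ N3 : ℕ, N3 = (univ.filter fun y : (prs J → ZMod 2) × ((Σ i, Fin (m i)) →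
          (U → ZMod 2) × (J → ZMod 2)) =>
      (∀ i, IndC (Lc E g i) (fun a : Fin (m i) => (y.2 ⟨i, a⟩).2)) ∧
      ¬ StrC E g (fun a => (y.2 a).2) ∧ Q y.1 y.2).card := ⟨_, rfl⟩
    rw [← hN3]
    have hfin3 : (N3 : ℝ) ≤ δ / 2 * 2 ^ (prs J).card := by
      refine le_trans ?_ hres3
      rw [hN3]
      apply Nat.cast_le.2
      apply Finset.card_le_card
      intro y hy
      rw [Finset.mem_filter] at hy ⊢
      obtain ⟨_, h5, h6, h7⟩ := hy
      rw [hQ] at h7
      exact ⟨Finset.mem_univ _, h5, h6, fun p => ⟨(h7 p).1.1, (h7 p).1.2.1⟩, fun p => (h7 p).2⟩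
    obtain ⟨P', hP'⟩ : ∃ P : ℕ, P = (prs J).card := ⟨_, rfl⟩
    rw [← hP'] at hmul hfin3 ⊢
    have hval : (N1 : ℝ) / 2 ^ P' = (N2 : ℝ) * 2 ^ (∑ a, (m a).choose 2) /
        2 ^ (∑ a, m a * ((Lc E g a).card - 1)) := by
      rw [div_eq_div_iff (by positivity) (by positivity)]
      have h2 : (N1 : ℝ) * 2 ^ (∑ a, m a * ((Lc E g a).card - 1)) =
          (N2 : ℝ) * 2 ^ (P' + ∑ a, (m a).choose 2) := by
        exact_mod_cast hmul
      rw [h2, pow_add]
      ring
    rw [← hval] at hfin2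
    have hfin3' : (N3 : ℝ) / 2 ^ P' ≤ δ / 2 := by
      rw [div_le_iff₀ (by positivity)]
      exact hfin3
    have hfin30 : 0 ≤ (N3 : ℝ) / 2 ^ P' := by positivity
    push_cast
    rw [add_div]
    rw [abs_le] at hfin2 ⊢
    constructor
    · linarith [hfin2.1]
    · linarith [hfin2.2]

end Pool.Agent.N869.QT.L.LA4
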