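import Pool.Agent.N869.QT.L.Stm
import Pool.Agent.N869.QT.L.LA1

/-!
# QT-LA3C, part 1: witness columns, the number of the completions for given columns
-/

set_option autoImplicit false
set_option linter.unusedVariables false
set_option linter.unusedSectionVars false
set_option linter.unusedSimpArgs false

open scoped Classical

namespace Pool.Agent.N869.QT.L.LA3C

open Finset Pool.Agent.N869.QT.L Pool.Agent.N869.QT.L.LA0

theorem ne_zero_one : ∀ x : ZMod 2, x ≠ 0 → x = 1 := by decide

theorem ch_one' : ch 1 = -1 := by decide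

theorem ch_le_one : ∀ x : ZMod 2, ch x ≤ 1 := by decide

section core

variable {X Q J : Type} [Fintype X] [Fintype Q] [Fintype J] [LinearOrder J]
variable (e : X → Finset Q) (g : J → Q) (T : Finset J) (D : J → X → ZMod 2)

/-- affine relations of the columns of colour `q` in `T` -/
noncomputable def AA (q : Q) : Finset ((X → ZMod 2) × ZMod 2) :=
  univ.filter fun p => ∀ l ∈ T, g l = q → ∑ x, p.1 x * D l x = p.2

/-- the affine span of the columns of colour `q` in `T` -/
noncomputable def VV (q : Q) : Finset (X → ZMod 2) :=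
  univ.filter fun γ => ∀ p ∈ AA g T D q, ∑ x, p.1 x * γ x = p.2

/-- the relations of the rows of a column `γ` -/
noncomputable def RR (q : Q) (γ : X → ZMod 2) : Finset (X → ZMod 2) :=
  univ.filter fun w => ∀ l ∈ T,
    ∑ x, (if q ∈ e x ∧ g l ∈ e x then w x * (γ x + D l x) else 0) = 0

lemma mem_AA {q : Q} {p : (X → ZMod 2) × ZMod 2} :
    p ∈ AA g T D q ↔ ∀ l ∈ T, g l = q → ∑ x, p.1 x * D l x = p.2 := by
  unfold AA; simp

lemma mem_VV {q : Q} {γ : X → ZMod 2} :
    γ ∈ VV g T D q ↔ ∀ p ∈ AA g T D q, ∑ x, p.1 x * γ x = p.2 := by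
  unfold VV; simp

lemma mem_RR {q : Q} {γ w : X → ZMod 2} :
    w ∈ RR e g T D q γ ↔ ∀ l ∈ T,
      ∑ x, (if q ∈ e x ∧ g l ∈ e x then w x * (γ x + D l x) else 0) = 0 := by
  unfold RR; simp

lemma AA_add {q : Q} {p p' : (X → ZMod 2) × ZMod 2} (h : p ∈ AA g T D q) (h' : p' ∈ AA g T D q) :
    p + p' ∈ AA g T D q := by
  rw [mem_AA] at h h' ⊢
  intro l hl hq
  simp only [Prod.fst_add, Prod.snd_add, Pi.add_apply, add_mul, Finset.sum_add_distrib]
  rw [h l hl hq, h' l hl hq]

lemma VV_mem_of {q : Q} {l : J} (hl : l ∈ T) (hq : g l = q) : D l ∈ VV g T D q := by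
  rw [mem_VV]
  intro p hp
  exact (mem_AA g T D).1 hp l hl hq

lemma VV_supp (hD : ∀ k x, g k ∉ e x → D k x = 0) {q : Q} {γ : X → ZMod 2}
    (hγ : γ ∈ VV g T D q) (x : X) (hx : q ∉ e x) : γ x = 0 := by
  have h : ((Pi.single x 1 : X → ZMod 2), (0 : ZMod 2)) ∈ AA g T D q := by
    rw [mem_AA]
    intro l hl hq
    simp only [Pi.single_apply, ite_mul, one_mul, zero_mul, Finset.sum_ite_eq',
      Finset.mem_univ, if_true]
    exact hD l x (by rwa [hq])
  have h2 := (mem_VV g T D).1 hγ _ h
  simpa only [Pi.single_apply, ite_mul, one_mul, zero_mul, Finset.sum_ite_eq',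
      Finset.mem_univ, if_true] using h2

/-- `#V #A ≤ 2 ^ M` -/
lemma card_VA (q : Q) :
    (VV g T D q).card * (AA g T D q).card ≤ 2 ^ Fintype.card X := by
  have h1 : ∀ γ : X → ZMod 2, ∑ p ∈ AA g T D q, ch (∑ x, p.1 x * γ x + p.2) =
      if γ ∈ VV g T D q then ((AA g T D q).card : ℤ) else 0 := by
    intro γ
    by_cases h : γ ∈ VV g T D q
    · rw [if_pos h, Finset.sum_congr rfl (g := fun _ => (1 : ℤ))]
      · simp
      · intro p hp
        rw [(mem_VV g T D).1 h p hp, add_self0, ch_zero]
    · rw [if_neg h]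
      rw [mem_VV] at h
      push Not at h
      obtain ⟨p0, hp0, hne⟩ := h
      have hone : ∑ x, p0.1 x * γ x + p0.2 = 1 := by
        refine ne_zero_one _ fun h0 => hne (add_eq0.1 h0)
      refine Finset.sum_involution (fun p _ => p + p0) ?_ ?_ ?_ ?_
      · intro p hp
        have : ∑ x, (p + p0).1 x * γ x + (p + p0).2 =
            (∑ x, p.1 x * γ x + p.2) + (∑ x, p0.1 x * γ x + p0.2) := by
          simp only [Prod.fst_add, Prod.snd_add, Pi.add_apply, add_mul, Finset.sum_add_distrib]
          ring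
        rw [this, hone, ch_add _ 1, ch_one']
        ring
      · intro p hp _ heq
        have h0 : p0 = 0 := by
          have := add_left_cancel (a := p) (b := p0) (c := 0) (by rw [heq, add_zero])
          exact this
        rw [h0] at hone
        simp at hone
      · intro p hp
        exact AA_add g T D hp hp0
      · intro p hp
        have h0 : p0 + p0 = 0 := by
          refine Prod.ext (funext fun x => ?_) ?_
          · exact add_self0 _
          · exact add_self0 _
        rw [add_assoc, h0, add_zero]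
  have h2 : ∑ γ : X → ZMod 2, ∑ p ∈ AA g T D q, ch (∑ x, p.1 x * γ x + p.2) =
      ((VV g T D q).card : ℤ) * (AA g T D q).card := by
    rw [Finset.sum_congr rfl fun γ _ => h1 γ, ← Finset.sum_filter, Finset.sum_const, nsmul_eq_mul]
    congr 3
    ext γ
    simp
  have h3 : ∑ γ : X → ZMod 2, ∑ p ∈ AA g T D q, ch (∑ x, p.1 x * γ x + p.2) ≤
      (2 : ℤ) ^ Fintype.card X := by
    rw [Finset.sum_comm]
    have h4 : ∀ p ∈ AA g T D q, ∑ γ : X → ZMod 2, ch (∑ x, p.1 x * γ x + p.2) ≤
        if p = 0 then (2 : ℤ) ^ Fintype.card X else 0 := by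
      intro p _
      have h5 : ∀ γ : X → ZMod 2, ch (∑ x, p.1 x * γ x + p.2) =
          ch (∑ x, γ x * p.1 x) * ch p.2 := by
        intro γ
        rw [ch_add]
        congr 2
        exact Finset.sum_congr rfl fun x _ => mul_comm _ _
      rw [Finset.sum_congr rfl fun γ _ => h5 γ, ← Finset.sum_mul, sum_ch]
      by_cases hp1 : ∀ x, p.1 x = 0
      · rw [if_pos hp1]
        by_cases hp2 : p.2 = 0
        · have : p = 0 := Prod.ext (funext hp1) hp2
          rw [if_pos this, hp2, ch_zero, mul_one]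
        · have : p ≠ 0 := fun h => hp2 (by rw [h]; rfl)
          rw [if_neg this, ne_zero_one _ hp2, ch_one']
          have : (0 : ℤ) ≤ 2 ^ Fintype.card X := by positivity
          linarith
      · rw [if_neg hp1, zero_mul]
        split_ifs <;> positivity
    refine (Finset.sum_le_sum h4).trans ?_
    rw [Finset.sum_ite_eq']
    split_ifs
    · exact le_refl _
    · positivity
  rw [h2] at h3
  exact_mod_cast h3

/-- `R` embeds in `A` -/
lemma RR_embed (hD : ∀ k x, g k ∉ e x → D k x = 0) {q : Q} {γ : X → ZMod 2}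
    (hγ : γ ∈ VV g T D q) {w : X → ZMod 2} (hw : w ∈ RR e g T D q γ) :
    (w, ∑ x, w x * γ x) ∈ AA g T D q := by
  rw [mem_AA]
  intro l hl hq
  have h := (mem_RR e g T D).1 hw l hl
  have h2 : ∑ x, (if q ∈ e x ∧ g l ∈ e x then w x * (γ x + D l x) else 0) =
      ∑ x, w x * γ x + ∑ x, w x * D l x := by
    rw [← Finset.sum_add_distrib]
    refine Finset.sum_congr rfl fun x _ => ?_
    by_cases hx : q ∈ e x
    · rw [if_pos ⟨hx, by rw [hq]; exact hx⟩, mul_add]
    · rw [if_neg (fun h => hx h.1), VV_supp e g T D hD hγ x hx, hD l x (by rw [hq]; exact hx)]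
      ring
  rw [h2] at h
  exact (add_eq0.1 h).symm

lemma RR_le (hD : ∀ k x, g k ∉ e x → D k x = 0) {q : Q} {γ : X → ZMod 2}
    (hγ : γ ∈ VV g T D q) : (RR e g T D q γ).card ≤ (AA g T D q).card := by
  refine Finset.card_le_card_of_injOn (fun w => (w, ∑ x, w x * γ x)) ?_ ?_
  · intro w hw
    exact RR_embed e g T D hD hγ hw
  · intro w _ w' _ h
    exact congrArg Prod.fst h

/-- if the numbers are equal then every relation in `A` is in `R` -/
lemma RR_eq (hD : ∀ k x, g k ∉ e x → D k x = 0) {q : Q} {γ : X → ZMod 2}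
    (hγ : γ ∈ VV g T D q) (hle : (AA g T D q).card ≤ (RR e g T D q γ).card)
    {p : (X → ZMod 2) × ZMod 2} (hp : p ∈ AA g T D q) : p.1 ∈ RR e g T D q γ := by
  have h : (RR e g T D q γ).image (fun w => (w, ∑ x, w x * γ x)) = AA g T D q := by
    refine Finset.eq_of_subset_of_card_le ?_ ?_
    · intro p hp
      rw [Finset.mem_image] at hp
      obtain ⟨w, hw, rfl⟩ := hp
      exact RR_embed e g T D hD hγ hw
    · rw [Finset.card_image_of_injective _ (fun w w' h => congrArg Prod.fst h)]
      exact hle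
  rw [← h, Finset.mem_image] at hp
  obtain ⟨w, hw, rfl⟩ := hp
  exact hw

/-- the sum over the possible columns -/
lemma S_le (hD : ∀ k x, g k ∉ e x → D k x = 0) (q : Q) :
    ∑ γ ∈ VV g T D q, (RR e g T D q γ).card ≤ 2 ^ Fintype.card X := by
  calc ∑ γ ∈ VV g T D q, (RR e g T D q γ).card ≤ ∑ γ ∈ VV g T D q, (AA g T D q).card :=
        Finset.sum_le_sum fun γ hγ => RR_le e g T D hD hγ
    _ = (VV g T D q).card * (AA g T D q).card := by rw [Finset.sum_const, smul_eq_mul]
    _ ≤ _ := card_VA g T D q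

lemma S_lt (hD : ∀ k x, g k ∉ e x → D k x = 0) (q : Q)
    (h : ∃ γ ∈ VV g T D q, (RR e g T D q γ).card < (AA g T D q).card) :
    ∑ γ ∈ VV g T D q, (RR e g T D q γ).card + 1 ≤ 2 ^ Fintype.card X := by
  obtain ⟨γ0, hγ0, hlt⟩ := h
  have h1 : ∑ γ ∈ VV g T D q, (RR e g T D q γ).card < ∑ γ ∈ VV g T D q, (AA g T D q).card :=
    Finset.sum_lt_sum (fun γ hγ => RR_le e g T D hD hγ) ⟨γ0, hγ0, hlt⟩
  rw [Finset.sum_const, smul_eq_mul] at h1
  exact h1.trans_le (card_VA g T D q)

lemma AA_congr {D' : J → X → ZMod 2} (h : ∀ l ∈ T, D' l = D l) (q : Q) :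
    AA g T D' q = AA g T D q := by
  ext p
  rw [mem_AA, mem_AA]
  refine forall_congr' fun l => forall_congr' fun hl => forall_congr' fun _ => ?_
  rw [h l hl]

lemma RR_congr {D' : J → X → ZMod 2} (h : ∀ l ∈ T, D' l = D l) (q : Q) (γ : X → ZMod 2) :
    RR e g T D' q γ = RR e g T D q γ := by
  ext w
  rw [mem_RR, mem_RR]
  refine forall_congr' fun l => forall_congr' fun hl => ?_
  rw [h l hl]

/-! ### the number of the completions -/

/-- the dual solutions -/
noncomputable def Lam : Finset (J × X → ZMod 2) :=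
  univ.filter fun w => ∀ k l, ∑ x, (if g k ∈ e x ∧ g l ∈ e x then
    (w (k, x) + w (l, x)) * (D k x + D l x) else 0) = 0

lemma mem_Lam {w : J × X → ZMod 2} :
    w ∈ Lam e g D ↔ ∀ k l, ∑ x, (if g k ∈ e x ∧ g l ∈ e x then
    (w (k, x) + w (l, x)) * (D k x + D l x) else 0) = 0 := by
  unfold Lam; simp

lemma count1 (tJ : J → ZMod 2) (f : X → J → ZMod 2) :
    (univ.filter fun α : prs J → ZMod 2 => ∀ x, ∀ k, g k ∈ e x →
      f x k + ∑ l ∈ univ.filter (fun l => g l ∈ e x), ext tJ α k l * (D k x + D l x) = 0).card *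
        2 ^ (Fintype.card J * Fintype.card X) ≤
      2 ^ (prs J).card * (Lam e g D).card := by
  set H : (J × X → ZMod 2) → J → J → ZMod 2 := fun w k l =>
    ∑ x, (if g k ∈ e x ∧ g l ∈ e x then w (k, x) * (D k x + D l x) else 0) with hH
  set a : (prs J → ZMod 2) → J × X → ZMod 2 := fun α p =>
    if g p.1 ∈ e p.2 then f p.2 p.1 + ∑ l ∈ univ.filter (fun l => g l ∈ e p.2),
      ext tJ α p.1 l * (D p.1 p.2 + D l p.2) else 0 with ha
  set C : (J × X → ZMod 2) → ZMod 2 := fun w =>
    ∑ p : J × X, w p * (if g p.1 ∈ e p.2 then f p.2 p.1 else 0) +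
      ∑ e' ∈ prs J, tJ e'.1 * tJ e'.2 * H w e'.1 e'.2 with hC
  set b : (J × X → ZMod 2) → prs J → ZMod 2 := fun w e' =>
    H w e'.1.1 e'.1.2 + H w e'.1.2 e'.1.1 with hb
  have hH0 : ∀ w k, H w k k = 0 := by
    intro w k
    simp only [hH]
    refine Finset.sum_eq_zero fun x _ => ?_
    rw [add_self0, mul_zero, ite_self]
  have hmain : ∀ α w, ∑ p, w p * a α p = ∑ e', α e' * b w e' + C w := by
    intro α w
    have h1 : ∑ p, w p * a α p = ∑ p : J × X, w p * (if g p.1 ∈ e p.2 then f p.2 p.1 else 0) +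
        ∑ k, ∑ l, ext tJ α k l * H w k l := by
      have h2 : ∀ p : J × X, w p * a α p = w p * (if g p.1 ∈ e p.2 then f p.2 p.1 else 0) +
          ∑ l, ext tJ α p.1 l *
            (if g p.1 ∈ e p.2 ∧ g l ∈ e p.2 then w p * (D p.1 p.2 + D l p.2) else 0) := by
        intro p
        simp only [ha]
        by_cases hp : g p.1 ∈ e p.2
        · rw [if_pos hp, if_pos hp, mul_add, Finset.mul_sum, Finset.sum_filter]
          congr 1
          refine Finset.sum_congr rfl fun l _ => ?_
          by_cases hl : g l ∈ e p.2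
          · rw [if_pos hl, if_pos ⟨hp, hl⟩]; ring
          · rw [if_neg hl, if_neg (fun h => hl h.2), mul_zero]
        · rw [if_neg hp, if_neg hp, mul_zero, zero_add]
          symm
          refine Finset.sum_eq_zero fun l _ => ?_
          rw [if_neg (fun h => hp h.1), mul_zero]
      rw [Finset.sum_congr rfl fun p _ => h2 p, Finset.sum_add_distrib]
      congr 1
      rw [← Finset.univ_product_univ, Finset.sum_product]
      refine Finset.sum_congr rfl fun k _ => ?_
      rw [Finset.sum_comm]
      refine Finset.sum_congr rfl fun l _ => ?_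
      simp only [hH]
      rw [Finset.mul_sum]
    have h3 : ∑ k, ∑ l, ext tJ α k l * H w k l =
        ∑ e' : prs J, α e' * b w e' + ∑ e' ∈ prs J, tJ e'.1 * tJ e'.2 * H w e'.1 e'.2 := by
      rw [sum_pairs]
      have h4 : ∑ k, ext tJ α k k * H w k k = 0 :=
        Finset.sum_eq_zero fun k _ => by rw [hH0, mul_zero]
      rw [h4, add_zero]
      have h5 : ∀ e' ∈ prs J, ext tJ α e'.1 e'.2 * H w e'.1 e'.2 +
          ext tJ α e'.2 e'.1 * H w e'.2 e'.1 =
          aa α e' * (H w e'.1 e'.2 + H w e'.2 e'.1) + tJ e'.1 * tJ e'.2 * H w e'.1 e'.2 := by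
        rintro ⟨k, l⟩ hkl
        have hlt : k < l := mem_prs.1 hkl
        simp only
        rw [LA1.ext_eq, LA1.ext_eq, if_pos hlt, if_neg (not_lt.2 hlt.le),
          aa_neg α (e := (l, k)) (not_lt.2 hlt.le)]
        ring
      rw [Finset.sum_congr rfl h5, Finset.sum_add_distrib]
      congr 1
      rw [← sum_aa α fun e' => H w e'.1 e'.2 + H w e'.2 e'.1]
    rw [h1, h3]
    simp only [hC]
    ring
  -- the double sum
  have hd1 : ∑ α : prs J → ZMod 2, ∑ w : J × X → ZMod 2, ch (∑ p, w p * a α p) =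
      (((univ.filter fun α : prs J → ZMod 2 => ∀ x, ∀ k, g k ∈ e x →
        f x k + ∑ l ∈ univ.filter (fun l => g l ∈ e x), ext tJ α k l * (D k x + D l x) = 0).card :
          ℤ)) * 2 ^ (Fintype.card J * Fintype.card X) := by
    rw [Finset.sum_congr rfl fun α _ => sum_ch (a α), ← Finset.sum_filter, Finset.sum_const,
      nsmul_eq_mul, Fintype.card_prod]
    congr 2
    congr 1
    ext α
    simp only [Finset.mem_filter, Finset.mem_univ, true_and]
    constructor
    · intro h x k hk
      have := h (k, x)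
      simp only [ha] at this
      rwa [if_pos hk] at this
    · rintro h ⟨k, x⟩
      simp only [ha]
      by_cases hk : g k ∈ e x
      · rw [if_pos hk]; exact h x k hk
      · rw [if_neg hk]
  have hd2 : ∑ α : prs J → ZMod 2, ∑ w : J × X → ZMod 2, ch (∑ p, w p * a α p) ≤
      2 ^ (prs J).card * ((Lam e g D).card : ℤ) := by
    rw [Finset.sum_comm]
    have h1 : ∀ w : J × X → ZMod 2, ∑ α : prs J → ZMod 2, ch (∑ p, w p * a α p) ≤
        if w ∈ Lam e g D then (2 : ℤ) ^ (prs J).card else 0 := by
      intro w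
      have h2 : ∀ α, ch (∑ p, w p * a α p) = ch (∑ e', α e' * b w e') * ch (C w) := by
        intro α
        rw [hmain, ch_add]
      rw [Finset.sum_congr rfl fun α _ => h2 α, ← Finset.sum_mul, sum_ch]
      by_cases hw : ∀ e', b w e' = 0
      · have hmem : w ∈ Lam e g D := by
          rw [mem_Lam]
          have hbb : ∀ k l, ∑ x, (if g k ∈ e x ∧ g l ∈ e x then
              (w (k, x) + w (l, x)) * (D k x + D l x) else 0) = H w k l + H w l k := by
            intro k l
            simp only [hH]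
            rw [← Finset.sum_add_distrib]
            refine Finset.sum_congr rfl fun x _ => ?_
            by_cases hkl : g k ∈ e x ∧ g l ∈ e x
            · rw [if_pos hkl, if_pos hkl, if_pos hkl.symm]; ring
            · rw [if_neg hkl, if_neg hkl, if_neg (fun h => hkl h.symm), add_zero]
          intro k l
          rw [hbb]
          rcases lt_trichotomy k l with h | h | h
          · exact hw ⟨(k, l), mem_prs.2 h⟩
          · rw [h, add_self0]
          · have := hw ⟨(l, k), mem_prs.2 h⟩
            rw [add_comm]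
            exact this
        rw [if_pos hw, if_pos hmem, Fintype.card_coe]
        have h3 := ch_le_one (C w)
        have h4 : (0 : ℤ) ≤ 2 ^ (prs J).card := by positivity
        nlinarith
      · rw [if_neg hw, zero_mul]
        split_ifs <;> positivity
    refine (Finset.sum_le_sum fun w _ => h1 w).trans ?_
    rw [← Finset.sum_filter, Finset.sum_const, nsmul_eq_mul, mul_comm]
    refine le_of_eq ?_
    congr 3
    ext w
    simp
  rw [hd1] at hd2
  exact_mod_cast hd2

/-- the dual solutions are few -/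
lemma count2 : (Lam e g D).card ≤
    2 ^ (T.card * Fintype.card X) * ∏ k ∈ Tᶜ, (RR e g T D (g k) (D k)).card := by
  -- the restriction to `T`
  set π : (J × X → ZMod 2) → (T × X → ZMod 2) := fun w p => w (p.1.1, p.2) with hπ
  have hfib : ∀ v ∈ (Lam e g D).image π, ((Lam e g D).filter fun w => π w = v).card ≤
      ∏ k ∈ Tᶜ, (RR e g T D (g k) (D k)).card := by
    intro v hv
    rw [Finset.mem_image] at hv
    obtain ⟨w0, hw0, rfl⟩ := hv
    -- columns
    have h1 : ∏ k ∈ Tᶜ, (RR e g T D (g k) (D k)).card =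
        (Fintype.piFinset fun k : J =>
          if k ∈ T then ({0} : Finset (X → ZMod 2)) else RR e g T D (g k) (D k)).card := by
      rw [Fintype.card_piFinset, ← Finset.prod_mul_prod_compl T]
      have h2 : ∏ k ∈ T, (if k ∈ T then ({0} : Finset (X → ZMod 2)) else
          RR e g T D (g k) (D k)).card = 1 := by
        refine Finset.prod_eq_one fun k hk => ?_
        rw [if_pos hk, Finset.card_singleton]
      rw [h2, one_mul]
      refine Finset.prod_congr rfl fun k hk => ?_
      rw [if_neg (Finset.mem_compl.1 hk)]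
    rw [h1]
    refine Finset.card_le_card_of_injOn (fun w k x => w (k, x) + w0 (k, x)) ?_ ?_
    · intro w hw
      rw [Finset.mem_coe, Finset.mem_filter] at hw
      obtain ⟨hw, hwv⟩ := hw
      rw [Finset.mem_coe, Fintype.mem_piFinset]
      intro k
      by_cases hk : k ∈ T
      · rw [if_pos hk, Finset.mem_singleton]
        funext x
        have := congrFun hwv (⟨k, hk⟩, x)
        simp only [hπ] at this
        change w (k, x) + w0 (k, x) = 0
        rw [this]
        exact add_self0 _
      · rw [if_neg hk, mem_RR]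
        intro l hl
        have e1 := (mem_Lam e g D).1 hw k l
        have e2 := (mem_Lam e g D).1 hw0 k l
        have e3 : ∑ x, (if g k ∈ e x ∧ g l ∈ e x then
            (w (k, x) + w0 (k, x)) * (D k x + D l x) else 0) =
            ∑ x, (if g k ∈ e x ∧ g l ∈ e x then
              (w (k, x) + w (l, x)) * (D k x + D l x) else 0) +
            ∑ x, (if g k ∈ e x ∧ g l ∈ e x then
              (w0 (k, x) + w0 (l, x)) * (D k x + D l x) else 0) := by
          rw [← Finset.sum_add_distrib]
          refine Finset.sum_congr rfl fun x _ => ?_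
          have := congrFun hwv (⟨l, hl⟩, x)
          simp only [hπ] at this
          by_cases hkl : g k ∈ e x ∧ g l ∈ e x
          · rw [if_pos hkl, if_pos hkl, if_pos hkl, this]
            linear_combination (-(w0 (l, x) * (D k x + D l x))) * two0
          · rw [if_neg hkl, if_neg hkl, if_neg hkl, add_zero]
        rw [e3, e1, e2, add_zero]
    · intro w _ w' _ h
      funext p
      have := congrFun (congrFun h p.1) p.2
      exact add_right_cancel this
  have h := Finset.card_le_mul_card_image (s := Lam e g D) (f := π) _ hfib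
  refine h.trans ?_
  rw [mul_comm]
  refine Nat.mul_le_mul_right _ ?_
  refine (Finset.card_le_univ _).trans (le_of_eq ?_)
  rw [Fintype.card_fun, ZMod.card, Fintype.card_prod, Fintype.card_coe]

/-- **The number of the completions for given columns.** -/
lemma count (tJ : J → ZMod 2) (f : X → J → ZMod 2) :
    ((univ.filter fun α : prs J → ZMod 2 => ∀ x, ∀ k, g k ∈ e x →
      f x k + ∑ l ∈ univ.filter (fun l => g l ∈ e x), ext tJ α k l * (D k x + D l x) = 0).card : ℝ)
        ≤ 2 ^ (prs J).card *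
          ∏ k ∈ Tᶜ, (((RR e g T D (g k) (D k)).card : ℝ) / 2 ^ Fintype.card X) := by
  have h1 := count1 e g D tJ f
  have h2 := count2 e g T D
  set N := (univ.filter fun α : prs J → ZMod 2 => ∀ x, ∀ k, g k ∈ e x →
      f x k + ∑ l ∈ univ.filter (fun l => g l ∈ e x), ext tJ α k l * (D k x + D l x) = 0).card
  set P := ∏ k ∈ Tᶜ, (RR e g T D (g k) (D k)).card with hP
  have h3 : N * 2 ^ (Fintype.card J * Fintype.card X) ≤
      2 ^ (prs J).card * (2 ^ (T.card * Fintype.card X) * P) :=
    h1.trans (Nat.mul_le_mul_left _ h2)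
  have h4 : (N : ℝ) * 2 ^ (Fintype.card J * Fintype.card X) ≤
      2 ^ (prs J).card * (2 ^ (T.card * Fintype.card X) * P) := by exact_mod_cast h3
  rw [Finset.prod_div_distrib, Finset.prod_const, ← pow_mul]
  have h5 : ∏ k ∈ Tᶜ, ((RR e g T D (g k) (D k)).card : ℝ) = (P : ℝ) := by
    rw [hP]; push_cast; rfl
  rw [h5, ← mul_div_assoc, le_div_iff₀ (by positivity)]
  have h6 : Fintype.card J = Tᶜ.card + T.card := by
    rw [Finset.card_compl_add_card]
  rw [h6, add_mul, pow_add] at h4
  have h7 : (0 : ℝ) < 2 ^ (T.card * Fintype.card X) := by positivity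
  have h8 : (N : ℝ) * 2 ^ (Fintype.card X * Tᶜ.card) * 2 ^ (T.card * Fintype.card X) ≤
      2 ^ (prs J).card * P * 2 ^ (T.card * Fintype.card X) := by
    calc _ = (N : ℝ) * (2 ^ (Tᶜ.card * Fintype.card X) * 2 ^ (T.card * Fintype.card X)) := by
          rw [mul_comm (Fintype.card X)]; ring
      _ ≤ _ := h4
      _ = _ := by ring
  exact le_of_mul_le_mul_right h8 h7

end core

end Pool.Agent.N869.QT.L.LA3C
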