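import Mathlib

/-!
# Project QT, linear algebra: definitions (copies of those in `Pool/Agent/R426/QK/Stm.lean` and
`Pool/Agent/R426/QJ/Stm.lean`, so that this part depends on Mathlib only)
-/

set_option autoImplicit false
set_option linter.unusedVariables false

open scoped Classical

namespace Pool.Agent.N869.QT.L

open Finset

/-- the limit `(1 - 1/2) (1 - 1/4) (1 - 1/8) ⋯` -/
noncomputable def c2 : ℝ := ∏' i : ℕ, (1 - (1 / 2 : ℝ) ^ (i + 1))

/-- the pairs of indices -/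
noncomputable def prs (ι : Type) [Fintype ι] [LinearOrder ι] : Finset (ι × ι) :=
  univ.filter fun e => e.1 < e.2

/-- the matrix with given entries below the diagonal, whose sum with its transpose has the entries
`t k * t l` off the diagonal -/
noncomputable def ext {ι : Type} [Fintype ι] [LinearOrder ι] (t : ι → ZMod 2) (α : prs ι → ZMod 2)
    (k l : ι) : ZMod 2 :=
  if h : (l, k) ∈ prs ι then α ⟨(l, k), h⟩ else
    if h' : (k, l) ∈ prs ι then α ⟨(k, l), h'⟩ + t k * t l else 0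

section blocks

variable {U J : Type} [Fintype U] [Fintype J]

/-- the row of a small prime, at the vector `(c, d)` -/
def rowU (sU : U → ZMod 2) (A : U → U → ZMod 2) (B : U → J → ZMod 2) (c : U → ZMod 2)
    (d : J → ZMod 2) (u : U) : ZMod 2 :=
  sU u * c u + ∑ v, A u v * (c u + c v) + ∑ l, B u l * (c u + d l)

/-- the row of a large prime, at the vector `(c, d)` -/
def rowJ (tU : U → ZMod 2) (sJ tJ : J → ZMod 2) (B : U → J → ZMod 2) (R : J → J → ZMod 2)
    (c : U → ZMod 2) (d : J → ZMod 2) (k : J) : ZMod 2 :=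
  sJ k * d k + ∑ u, (B u k + tU u * tJ k) * (d k + c u) + ∑ l, R k l * (d k + d l)

/-- the sum of the rows, at the vector `(c, d)` -/
def colS (sU tU : U → ZMod 2) (sJ tJ : J → ZMod 2) (c : U → ZMod 2) (d : J → ZMod 2) : ZMod 2 :=
  ∑ u, (sU u + tU u) * c u + ∑ j, (sJ j + tJ j) * d j

/-- the alternating form (the sum of the matrix and its transpose) -/
def bt (tU : U → ZMod 2) (tJ : J → ZMod 2) (c : U → ZMod 2) (d : J → ZMod 2) (c' : U → ZMod 2)
    (d' : J → ZMod 2) : ZMod 2 :=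
  (∑ u, tU u * c u + ∑ j, tJ j * d j) * (∑ u, tU u * c' u + ∑ j, tJ j * d' j) +
    (∑ u, tU u * (c u * c' u) + ∑ j, tJ j * (d j * d' j))

/-- the vectors `d i` are independent modulo the constant vectors -/
def IndJ {m : ℕ} (d : Fin m → J → ZMod 2) : Prop :=
  ∀ a : Fin m → ZMod 2, (∃ i, a i ≠ 0) → ∃ k l, ∑ i, a i * (d i k + d i l) ≠ 0

/-- the tuples of vectors that can lie in the kernel -/
def OKt (sU tU : U → ZMod 2) (sJ tJ : J → ZMod 2) (A : U → U → ZMod 2) (B : U → J → ZMod 2)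
    {m : ℕ} (c : Fin m → U → ZMod 2) (d : Fin m → J → ZMod 2) : Prop :=
  (∀ i u, rowU sU A B (c i) (d i) u = 0) ∧ (∀ i, colS sU tU sJ tJ (c i) (d i) = 0) ∧
    ∀ i j, bt tU tJ (c i) (d i) (c j) (d j) = 0

/-- the constant part of the row of a large prime, at the vector `(c, d)` -/
def fJ (W : Finset U) (tU : U → ZMod 2) (sJ tJ : J → ZMod 2) (B : U → J → ZMod 2)
    (x : (U → ZMod 2) × (J → ZMod 2)) (k : J) : ZMod 2 :=
  sJ k * x.2 k + ∑ u ∈ W, (B u k + tU u * tJ k) * (x.2 k + x.1 u)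

end blocks

/-- LA1 for one system: the number of the completions with a given tuple in the kernel. -/
def S_LA1 : Prop := ∀ (U J : Type) [Fintype U] [Fintype J] [LinearOrder J]
  (sU tU : U → ZMod 2) (sJ tJ : J → ZMod 2) (A : U → U → ZMod 2) (B : U → J → ZMod 2),
  ∑ u, tU u + ∑ j, tJ j = 0 → (∀ u v, u ≠ v → A u v + A v u = tU u * tU v) →
  ∀ (m : ℕ) (c : Fin m → U → ZMod 2) (d : Fin m → J → ZMod 2), IndJ d →
  (∀ i u, rowU sU A B (c i) (d i) u = 0) →
  (univ.filter fun α : prs J → ZMod 2 =>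
      ∀ i k, rowJ tU sJ tJ B (ext tJ α) (c i) (d i) k = 0).card * 2 ^ (m * (Fintype.card J - 1)) =
    if OKt sU tU sJ tJ A B c d then 2 ^ ((prs J).card + m.choose 2) else 0

/-- LA2 for one system: the number of the tuples that can lie in the kernel. -/
def S_LA2 : Prop := ∀ (m : ℕ) (δ : ℝ), 0 < δ → ∃ V : ℕ, ∀ (U J : Type) [Fintype U] [Fintype J]
  (sU tU : U → ZMod 2) (sJ tJ : J → ZMod 2) (A : U → U → ZMod 2) (B : U → J → ZMod 2),
  4 * Fintype.card U + V ≤ (univ.filter fun j => tJ j = 1).card →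
  ∑ u, tU u + ∑ j, tJ j = 0 → (∀ u v, u ≠ v → A u v + A v u = tU u * tU v) →
  (∀ (w : U → ZMod 2) (e : ZMod 2), ((∃ u, w u ≠ 0) ∨ e ≠ 0) →
    ∃ k, e * (sJ k + tJ k) + ∑ u, w u * B u k ≠ 0) →
  |((univ.filter fun x : (Fin m → U → ZMod 2) × (Fin m → J → ZMod 2) =>
      IndJ x.2 ∧ OKt sU tU sJ tJ A B x.1 x.2).card : ℝ) * 2 ^ m.choose 2 /
      2 ^ (m * (Fintype.card J - 1)) - 1| ≤ δ

/-- MOMJ: the probability that all of some random numbers are zero, from the joint moments. -/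
def S_MOMJ : Prop := ∀ (I : Type) [Fintype I] (ε : ℝ), 0 < ε → ∃ (M : ℕ) (δ : ℝ), 0 < δ ∧
  ∀ (Ω : Type) [Fintype Ω] [Nonempty Ω] (r : Ω → I → ℕ),
  (∀ m : I → ℕ, (∀ i, m i ≤ M) →
    |(∑ ω, ∏ i, ∏ a ∈ range (m i), ((2 : ℝ) ^ r ω i - 2 ^ a)) / Fintype.card Ω - 1| ≤ δ) →
  |((univ.filter fun ω => ∀ i, r ω i = 0).card : ℝ) / Fintype.card Ω - c2 ^ Fintype.card I| ≤ ε

end Pool.Agent.N869.QT.L
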