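import Pool.Agent.N869.QT.L.Q0

/-!
# Project QT (helper869), linear algebra: coloured block systems over `𝔽₂`

`Q` is a finite set of colours, `E : I → Finset Q` a finite family of different nonempty sets of colours
(`Fam`). `J` is the set of the large primes, `g : J → Q` their colours, `U` the set of the small primes.
The system `a : I` is supported on `W a ⊆ U` and on `Lc E g a ⊆ J` (the large primes with colour in `E a`).
The symbols between the large primes are random (`ext tJ α`, `α : prs J → ZMod 2`).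

`S_LAC`: the probability that no system has a nonzero solution is close to `c2 ^ #I`.
-/

set_option autoImplicit false
set_option linter.unusedVariables false

open scoped Classical

namespace Pool.Agent.N869.QT.L

open Finset

section blocks

variable {U J : Type} [Fintype U] [Fintype J]

/-- the block system supported on the small primes in `W` and the large primes in `L` has no solution
but zero -/
def GdL (W : Finset U) (L : Finset J) (sU tU : U → ZMod 2) (sJ tJ : J → ZMod 2)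
    (A : U → U → ZMod 2) (B : U → J → ZMod 2) (R : J → J → ZMod 2) : Prop :=
  ∀ (c : U → ZMod 2) (d : J → ZMod 2), (∀ u, u ∉ W → c u = 0) → (∀ k, k ∉ L → d k = 0) →
    (∀ u ∈ W, sU u * c u + ∑ v ∈ W, A u v * (c u + c v) + ∑ l ∈ L, B u l * (c u + d l) = 0) →
    (∀ k ∈ L, sJ k * d k + ∑ u ∈ W, (B u k + tU u * tJ k) * (d k + c u) +
      ∑ l ∈ L, R k l * (d k + d l) = 0) →
    (∀ u, c u = 0) ∧ ∀ l, d l = 0

/-- the large primes of the system `a` -/
noncomputable def Lc {I Q : Type} (E : I → Finset Q) (g : J → Q) (a : I) : Finset J :=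
  univ.filter fun k => g k ∈ E a

/-- the hypotheses on the blocks: `g k` is the colour of the large prime `k` -/
structure HypC {I Q : Type} (K : ℕ) (W : I → Finset U) (E : I → Finset Q) (g : J → Q)
    (sU tU : U → ZMod 2) (sJ tJ : J → ZMod 2) (A : U → U → ZMod 2) (B : U → J → ZMod 2) : Prop where
  many : ∀ q : Q, K * (Fintype.card U + Nat.log 2 (Fintype.card J) + 1) ≤
    (univ.filter fun k => g k = q ∧ tJ k = 1).card
  par : ∀ a, ∑ u ∈ W a, tU u + ∑ k ∈ Lc E g a, tJ k = 0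
  recip : ∀ u v, u ≠ v → A u v + A v u = tU u * tU v
  nd : ∀ (q : Q) (w : U → ZMod 2) (e : ZMod 2), ((∃ u, w u ≠ 0) ∨ e ≠ 0) →
    (∃ k, g k = q ∧ e * sJ k + ∑ u, w u * (B u k + tU u * tJ k) ≠ 0) ∧
    ∃ k, g k = q ∧ e * (sJ k + tJ k) + ∑ u, w u * B u k ≠ 0

end blocks

/-- the probability that a random completion is good for all the systems is close to `c2 ^ #I` -/
def LAEC {I Q : Type} [Fintype I] (E : I → Finset Q) (ε : ℝ) (K : ℕ) : Prop :=
  ∀ (U J : Type) [Fintype U] [Fintype J] [LinearOrder J] (W : I → Finset U) (g : J → Q)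
  (sU tU : U → ZMod 2) (sJ tJ : J → ZMod 2) (A : U → U → ZMod 2) (B : U → J → ZMod 2),
  HypC K W E g sU tU sJ tJ A B →
  |((univ.filter fun α : prs J → ZMod 2 =>
      ∀ a, GdL (W a) (Lc E g a) sU tU sJ tJ A B (ext tJ α)).card : ℝ) /
      2 ^ (prs J).card - c2 ^ Fintype.card I| ≤ ε

/-- the families of sets of colours -/
structure Fam {I Q : Type} (E : I → Finset Q) : Prop where
  inj : Function.Injective E
  ne : ∀ a, (E a).Nonempty

/-- QT-LA -/
def S_LAC : Prop := ∀ (I Q : Type) [Fintype I] [Fintype Q] (E : I → Finset Q), Fam E →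
  ∀ ε : ℝ, 0 < ε → ∃ K : ℕ, LAEC E ε K

/-- the vectors `d x`, `x = (a, i)` with `q ∈ E a`, are independent on the colour `q` modulo the
constant vectors, for every colour `q` -/
def StrC {I Q J : Type} [Fintype I] (E : I → Finset Q) (g : J → Q) {m : I → ℕ}
    (d : (Σ a, Fin (m a)) → J → ZMod 2) : Prop :=
  ∀ (q : Q) (w : (Σ a, Fin (m a)) → ZMod 2), (∀ x, q ∉ E x.1 → w x = 0) → (∃ x, w x ≠ 0) →
    ∃ k l, g k = q ∧ g l = q ∧ ∑ x, w x * (d x k + d x l) ≠ 0

/-- the vectors `d i` are independent on `L` modulo the constant vectors -/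
def IndC {J : Type} (L : Finset J) {m : ℕ} (d : Fin m → J → ZMod 2) : Prop :=
  ∀ w : Fin m → ZMod 2, (∃ i, w i ≠ 0) → ∃ k ∈ L, ∃ l ∈ L, ∑ i, w i * (d i k + d i l) ≠ 0

section rows

variable {J : Type} [Fintype J] [LinearOrder J]

/-- the condition on one vector -/
noncomputable def c1C (L : Finset J) (tJ : J → ZMod 2) (f d : J → ZMod 2) : ZMod 2 :=
  ∑ k ∈ L, f k + ∑ e ∈ (prs J).filter (fun e => e.1 ∈ L ∧ e.2 ∈ L), tJ e.1 * tJ e.2 * (d e.1 + d e.2)

/-- the condition on two vectors -/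
noncomputable def c2C (L : Finset J) (tJ : J → ZMod 2) (f d f' d' : J → ZMod 2) : ZMod 2 :=
  ∑ k ∈ L, (f k * d' k + f' k * d k) +
    ∑ k ∈ L, ∑ l ∈ L, (if k = l then 0 else tJ k * tJ l * (d k * d' l))

end rows

/-- QT-LA1: the number of the completions that satisfy given linear equations. -/
def S_LA1C : Prop := ∀ (I Q J : Type) [Fintype I] [Fintype Q] [Fintype J] [LinearOrder J]
  (E : I → Finset Q) (g : J → Q) (m : I → ℕ) (tJ : J → ZMod 2)
  (f d : (Σ a, Fin (m a)) → J → ZMod 2), Fam E → StrC E g d →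
  (univ.filter fun α : prs J → ZMod 2 => ∀ x, ∀ k ∈ Lc E g x.1,
      f x k + ∑ l ∈ Lc E g x.1, ext tJ α k l * (d x k + d x l) = 0).card *
      2 ^ (∑ a, m a * ((Lc E g a).card - 1)) =
    if (∀ x, c1C (Lc E g x.1) tJ (f x) (d x) = 0) ∧
        (∀ (a : I) (i j : Fin (m a)), i ≠ j →
          c2C (Lc E g a) tJ (f ⟨a, i⟩) (d ⟨a, i⟩) (f ⟨a, j⟩) (d ⟨a, j⟩) = 0)
      then 2 ^ ((prs J).card + ∑ a, (m a).choose 2) else 0

section tuples

variable {U J : Type} [Fintype U] [Fintype J] [LinearOrder J]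

/-- the vectors of the system of `W`, `L` that satisfy the equations of the small primes; the supports -/
def SmC (W : Finset U) (L : Finset J) (sU : U → ZMod 2) (A : U → U → ZMod 2) (B : U → J → ZMod 2)
    (x : (U → ZMod 2) × (J → ZMod 2)) : Prop :=
  (∀ u, u ∉ W → x.1 u = 0) ∧ (∀ k, k ∉ L → x.2 k = 0) ∧
  ∀ u ∈ W, sU u * x.1 u + ∑ v ∈ W, A u v * (x.1 u + x.1 v) + ∑ l ∈ L, B u l * (x.1 u + x.2 l) = 0

/-- the vectors that can lie in the kernel of the system of `W`, `L` -/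
def URC (W : Finset U) (L : Finset J) (sU tU : U → ZMod 2) (sJ tJ : J → ZMod 2) (A : U → U → ZMod 2)
    (B : U → J → ZMod 2) (x : (U → ZMod 2) × (J → ZMod 2)) : Prop :=
  SmC W L sU A B x ∧ c1C L tJ (fJ W tU sJ tJ B x) x.2 = 0

/-- the equations of the large primes -/
def KrC (W : Finset U) (L : Finset J) (tU : U → ZMod 2) (sJ tJ : J → ZMod 2)
    (B : U → J → ZMod 2) (R : J → J → ZMod 2) (x : (U → ZMod 2) × (J → ZMod 2)) : Prop :=
  ∀ k ∈ L, fJ W tU sJ tJ B x k + ∑ l ∈ L, R k l * (x.2 k + x.2 l) = 0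

end tuples

/-- QT-LA2: the number of the strongly independent tuples that can lie in the kernels. -/
def S_LA2C : Prop := ∀ (I Q : Type) [Fintype I] [Fintype Q] (E : I → Finset Q), Fam E →
  ∀ (m : I → ℕ) (δ : ℝ), 0 < δ → ∃ K : ℕ,
  ∀ (U J : Type) [Fintype U] [Fintype J] [LinearOrder J] (W : I → Finset U) (g : J → Q)
  (sU tU : U → ZMod 2) (sJ tJ : J → ZMod 2) (A : U → U → ZMod 2) (B : U → J → ZMod 2),
  HypC K W E g sU tU sJ tJ A B →
  |((univ.filter fun x : (Σ a, Fin (m a)) → (U → ZMod 2) × (J → ZMod 2) =>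
      StrC E g (fun p => (x p).2) ∧ (∀ p, URC (W p.1) (Lc E g p.1) sU tU sJ tJ A B (x p)) ∧
      ∀ (a : I) (i j : Fin (m a)), i ≠ j →
        c2C (Lc E g a) tJ (fJ (W a) tU sJ tJ B (x ⟨a, i⟩)) (x ⟨a, i⟩).2
          (fJ (W a) tU sJ tJ B (x ⟨a, j⟩)) (x ⟨a, j⟩).2 = 0).card : ℝ) *
      2 ^ (∑ a, (m a).choose 2) / 2 ^ (∑ a, m a * ((Lc E g a).card - 1)) - 1| ≤ δ

/-- QT-LA3: the tuples of vectors in the kernels that are independent in each of the systems modulo the
constants, but not strongly independent, are rare. -/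
def S_LA3C : Prop := ∀ (I Q : Type) [Fintype I] [Fintype Q] (E : I → Finset Q), Fam E →
  ∀ (m : I → ℕ) (δ : ℝ), 0 < δ → ∃ K : ℕ,
  ∀ (U J : Type) [Fintype U] [Fintype J] [LinearOrder J] (W : I → Finset U) (g : J → Q)
  (tU : U → ZMod 2) (sJ tJ : J → ZMod 2) (B : U → J → ZMod 2),
  (∀ q : Q, K * (Fintype.card U + Nat.log 2 (Fintype.card J) + 1) ≤
    (univ.filter fun k => g k = q).card) →
  ((univ.filter fun y : (prs J → ZMod 2) × ((Σ a, Fin (m a)) → (U → ZMod 2) × (J → ZMod 2)) =>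
      (∀ a, IndC (Lc E g a) (fun i : Fin (m a) => (y.2 ⟨a, i⟩).2)) ∧
      ¬ StrC E g (fun p => (y.2 p).2) ∧
      (∀ p, (∀ u, u ∉ W p.1 → (y.2 p).1 u = 0) ∧ (∀ k, k ∉ Lc E g p.1 → (y.2 p).2 k = 0)) ∧
      ∀ p, KrC (W p.1) (Lc E g p.1) tU sJ tJ B (ext tJ y.1) (y.2 p)).card : ℝ) ≤
    δ * 2 ^ (prs J).card

/-- QT-LA4: the assembly -/
def S_LA4C : Prop := S_MOMJ → S_LA1C → S_LA2C → S_LA3C → S_LAC

end Pool.Agent.N869.QT.L
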